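import Pool.Agent.FKP.Defs

/-!
# FKP: basic facts on `A N`
-/

set_option autoImplicit false

open Finset

noncomputable section

namespace Pool.Agent.FKP

variable {N : ℕ}

/-! ### relations in `E N` -/

theorem lt_sq (p : Lt N) : lt p * lt p = 0 := by
  have := RingQuot.mkRingHom_rel (r := Rel N) (Or.inl ⟨p, rfl, rfl⟩)
  simpa [lt] using this

theorem lt_tri1 {a b c : Fin N} (h1 : a < b) (h2 : b < c) :
    lt ⟨(a, b), h1⟩ * lt ⟨(b, c), h2⟩ =
      lt ⟨(a, c), h1.trans h2⟩ * lt ⟨(a, b), h1⟩ + lt ⟨(b, c), h2⟩ * lt ⟨(a, c), h1.trans h2⟩ := by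
  have := RingQuot.mkRingHom_rel (r := Rel N) (Or.inr (Or.inl
    ⟨⟨(a, b), h1⟩, ⟨(b, c), h2⟩, ⟨(a, c), h1.trans h2⟩, rfl, rfl, rfl, rfl, rfl⟩))
  simpa [lt] using this

theorem lt_tri2 {a b c : Fin N} (h1 : a < b) (h2 : b < c) :
    lt ⟨(b, c), h2⟩ * lt ⟨(a, b), h1⟩ =
      lt ⟨(a, b), h1⟩ * lt ⟨(a, c), h1.trans h2⟩ + lt ⟨(a, c), h1.trans h2⟩ * lt ⟨(b, c), h2⟩ := by
  have := RingQuot.mkRingHom_rel (r := Rel N) (Or.inr (Or.inr (Or.inl
    ⟨⟨(a, b), h1⟩, ⟨(b, c), h2⟩, ⟨(a, c), h1.trans h2⟩, rfl, rfl, rfl, rfl, rfl⟩)))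
  simpa [lt] using this

theorem lt_comm (p q : Lt N) (h1 : p.1.1 ≠ q.1.1) (h2 : p.1.1 ≠ q.1.2) (h3 : p.1.2 ≠ q.1.1)
    (h4 : p.1.2 ≠ q.1.2) : lt p * lt q = lt q * lt p := by
  have := RingQuot.mkRingHom_rel (r := Rel N) (Or.inr (Or.inr (Or.inr
    ⟨p, q, h1, h2, h3, h4, rfl, rfl⟩)))
  simpa [lt] using this

/-! ### the letters of `A N` -/

theorem X_lt {a b : Fin N} (h : a < b) : X a b = toA N (lt ⟨(a, b), h⟩) := by
  simp [X, h]

theorem X_self (a : Fin N) : X a a = (0 : A N) := by simp [X]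

theorem X_neg (a b : Fin N) : X b a = -(X a b : A N) := by
  rcases lt_trichotomy a b with h | h | h
  · rw [X_lt h, X, dif_neg (not_lt.2 h.le), dif_pos h]
  · subst h; simp [X_self]
  · rw [X_lt h, X, dif_neg (not_lt.2 h.le), dif_pos h, neg_neg]

theorem X_sq (a b : Fin N) : X a b * X a b = (0 : A N) := by
  rcases lt_trichotomy a b with h | h | h
  · rw [X_lt h, ← map_mul, lt_sq, map_zero]
  · subst h; simp [X_self]
  · rw [X_neg b a, X_lt h, neg_mul_neg, ← map_mul, lt_sq, map_zero]

theorem X_comm {a b c d : Fin N} (h1 : a ≠ c) (h2 : a ≠ d) (h3 : b ≠ c) (h4 : b ≠ d) :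
    X a b * X c d = (X c d * X a b : A N) := by
  have key : ∀ {a b c d : Fin N}, a < b → c < d → a ≠ c → a ≠ d → b ≠ c → b ≠ d →
      X a b * X c d = (X c d * X a b : A N) := by
    intro a b c d hab hcd h1 h2 h3 h4
    rw [X_lt hab, X_lt hcd, ← map_mul, ← map_mul, lt_comm _ _ h1 h2 h3 h4]
  rcases lt_trichotomy a b with h | h | h
  · rcases lt_trichotomy c d with h' | h' | h'
    · exact key h h' h1 h2 h3 h4
    · subst h'; simp [X_self]
    · rw [X_neg d c, mul_neg, neg_mul, key h h' h2 h1 h4 h3]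
  · subst h; simp [X_self]
  · rcases lt_trichotomy c d with h' | h' | h'
    · rw [X_neg b a, mul_neg, neg_mul, key h h' h3 h4 h1 h2]
    · subst h'; simp [X_self]
    · rw [X_neg b a, X_neg d c, neg_mul_neg, neg_mul_neg, key h h' h4 h3 h2 h1]

/-- the relation of three letters, for any three different indices -/
theorem X_tri {a b c : Fin N} (h1 : a ≠ b) (h2 : b ≠ c) (h3 : a ≠ c) :
    X a b * X b c + X b c * X c a + X c a * X a b = (0 : A N) := by
  -- the two sorted relations
  have k1 : ∀ {a b c : Fin N}, a < b → b < c →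
      X a b * X b c = (X a c * X a b + X b c * X a c : A N) := by
    intro a b c hab hbc
    rw [X_lt hab, X_lt hbc, X_lt (hab.trans hbc), ← map_mul, ← map_mul, ← map_mul, ← map_add,
      lt_tri1 hab hbc]
  have k2 : ∀ {a b c : Fin N}, a < b → b < c →
      X b c * X a b = (X a b * X a c + X a c * X b c : A N) := by
    intro a b c hab hbc
    rw [X_lt hab, X_lt hbc, X_lt (hab.trans hbc), ← map_mul, ← map_mul, ← map_mul, ← map_add,
      lt_tri2 hab hbc]
  -- even (cyclic) order
  have e : ∀ {a b c : Fin N}, a < b → b < c →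
      X a b * X b c + X b c * X c a + X c a * X a b = (0 : A N) := by
    intro a b c hab hbc
    rw [X_neg a c, mul_neg, neg_mul, k1 hab hbc]
    abel
  have o : ∀ {a b c : Fin N}, a < b → b < c →
      X a c * X c b + X c b * X b a + X b a * X a c = (0 : A N) := by
    intro a b c hab hbc
    rw [X_neg b c, X_neg a b, mul_neg, neg_mul_neg, neg_mul, k2 hab hbc]
    abel
  rcases lt_or_gt_of_ne h1 with hab | hab <;> rcases lt_or_gt_of_ne h2 with hbc | hbc <;>
    rcases lt_or_gt_of_ne h3 with hac | hac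
  · exact e hab hbc
  · exact absurd (hab.trans hbc) (not_lt.2 hac.le)
  · -- a < c < b
    exact o hac hbc
  · -- c < a < b
    have := e hac hab
    rw [← this]; abel
  · -- b < a < c
    have := o hab hac
    rw [← this]; abel
  · -- b < c < a
    have := e hbc hac
    rw [← this]; abel
  · exact absurd (hac.trans hbc) (not_lt.2 hab.le)
  · -- c < b < a
    have := o hbc hab
    rw [← this]; abel

/-- first form of the relation, for any three different indices -/
theorem X_path {a b c : Fin N} (h1 : a ≠ b) (h2 : b ≠ c) (h3 : a ≠ c) :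
    X a b * X b c = (X a c * X a b + X b c * X a c : A N) := by
  have := X_tri (N := N) h1 h2 h3
  rw [X_neg a c, mul_neg, neg_mul] at this
  rw [← sub_eq_zero, ← this]
  abel

/-- second form of the relation, for any three different indices -/
theorem X_path' {a b c : Fin N} (h1 : a ≠ b) (h2 : b ≠ c) (h3 : a ≠ c) :
    X b c * X a b = (X a b * X a c + X a c * X b c : A N) := by
  have := X_tri (N := N) h3 h2.symm h1
  rw [X_neg b c, X_neg a b, mul_neg, neg_mul, neg_mul, mul_neg, neg_neg] at this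
  rw [← sub_eq_zero, ← this]
  abel

/-! ### the cone -/

theorem X_mem {a b : Fin N} (h : a < b) : X a b ∈ P N := Subsemiring.subset_closure ⟨a, b, h, rfl⟩

theorem toA_surj : Function.Surjective (toA N) := RingCon.mk'_surjective (c := con N)

theorem toA_eq {u v : E N} : toA N u = toA N v ↔ u - v ∈ posE N ∧ v - u ∈ posE N :=
  RingCon.eq (con N)

theorem toA_mem {u : E N} (h : u ∈ posE N) : toA N u ∈ P N := by
  have : posE N ≤ (P N).comap (toA N) := by
    refine Subsemiring.closure_le.2 ?_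
    rintro _ ⟨p, rfl⟩
    have := X_mem p.2
    rw [X_lt p.2] at this
    exact this
  exact this h

/-- the elements of the cone come from sums of words -/
theorem mem_P {z : A N} : z ∈ P N ↔ ∃ u ∈ posE N, toA N u = z := by
  constructor
  · intro h
    induction h using Subsemiring.closure_induction with
    | mem z hz =>
      obtain ⟨a, b, hab, rfl⟩ := hz
      exact ⟨_, lt_mem _, (X_lt hab).symm⟩
    | zero => exact ⟨0, zero_mem _, map_zero _⟩
    | one => exact ⟨1, one_mem _, map_one _⟩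
    | add a b _ _ ha hb =>
      obtain ⟨u, hu, rfl⟩ := ha
      obtain ⟨v, hv, rfl⟩ := hb
      exact ⟨u + v, add_mem hu hv, map_add _ _ _⟩
    | mul a b _ _ ha hb =>
      obtain ⟨u, hu, rfl⟩ := ha
      obtain ⟨v, hv, rfl⟩ := hb
      exact ⟨u * v, mul_mem hu hv, map_mul _ _ _⟩
  · rintro ⟨u, hu, rfl⟩
    exact toA_mem hu

/-- an element of `E N` is a sum of words if its image in `A N` is -/
theorem posE_of_toA {u : E N} (h : toA N u ∈ P N) : u ∈ posE N := by
  obtain ⟨v, hv, he⟩ := mem_P.1 h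
  have := (toA_eq.1 he).2
  have e : u = (u - v) + v := by abel
  rw [e]
  exact add_mem this hv

/-- the cone is pointed -/
theorem pointed {z : A N} (h1 : z ∈ P N) (h2 : -z ∈ P N) : z = 0 := by
  obtain ⟨u, rfl⟩ := toA_surj z
  rw [← map_neg] at h2
  have k1 := posE_of_toA h1
  have k2 := posE_of_toA h2
  rw [← map_zero (toA N), toA_eq]
  simpa using ⟨k1, k2⟩

theorem eq_zero_of_add {a b : A N} (ha : a ∈ P N) (hb : b ∈ P N) (h : a + b = 0) : a = 0 := by
  refine pointed ha ?_
  have : -a = b := neg_eq_of_add_eq_zero_right h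
  rw [this]; exact hb

/-- every element is a difference of elements of the cone -/
theorem exists_subA (z : A N) : ∃ a ∈ P N, ∃ b ∈ P N, z = a - b := by
  obtain ⟨u, rfl⟩ := toA_surj z
  obtain ⟨a, ha, b, hb, rfl⟩ := exists_sub u
  exact ⟨_, toA_mem ha, _, toA_mem hb, map_sub _ _ _⟩

/-- the words of `A N` -/
def Wd (N : ℕ) : Submonoid (A N) := Submonoid.closure {z | ∃ a b : Fin N, a < b ∧ z = X a b}

theorem Wd_le {z : A N} (h : z ∈ Wd N) : z ∈ P N := by
  induction h using Submonoid.closure_induction with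
  | mem z hz => exact Subsemiring.subset_closure hz
  | one => exact one_mem _
  | mul a b _ _ ha hb => exact mul_mem ha hb

/-- the cone is additively generated by the words -/
theorem P_induction {p : A N → Prop} (h0 : p 0) (ha : ∀ a b, p a → p b → p (a + b))
    (hw : ∀ w ∈ Wd N, p w) {z : A N} (hz : z ∈ P N) : p z := by
  have hz' : z ∈ AddSubmonoid.closure (Wd N : Set (A N)) := by
    rw [P] at hz
    rw [Wd, ← Subsemiring.mem_closure_iff]
    exact hz
  clear hz
  induction hz' using AddSubmonoid.closure_induction with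
  | mem z hz => exact hw z hz
  | zero => exact h0
  | add a b _ _ h1 h2 => exact ha a b h1 h2

/-- the words generate `A N` additively -/
theorem A_induction {p : A N → Prop} (h0 : p 0) (ha : ∀ a b, p a → p b → p (a + b))
    (hn : ∀ a, p a → p (-a)) (hw : ∀ w ∈ Wd N, p w) (z : A N) : p z := by
  obtain ⟨a, ha', b, hb', rfl⟩ := exists_subA z
  rw [sub_eq_add_neg]
  exact ha _ _ (P_induction h0 ha hw ha') (hn _ (P_induction h0 ha hw hb'))

end Pool.Agent.FKP
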