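import Mathlib

/-!
# FKP: Schubert polynomials at Dunkl elements of the Fomin–Kirillov algebra

`E N` is the Fomin–Kirillov algebra on the letters `x_ab`, `a < b` in `Fin N` (the relations are
those of the problem); `posE` is the set of the sums of words. `A N` is the quotient of `E N` by
the two-sided ideal `posE ∩ -posE`; its cone `P N` is pointed, and an element of `E N` is a sum of
words if and only if its image is.
-/

set_option autoImplicit false

open Finset

noncomputable section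

namespace Pool.Agent.FKP

section ids

variable {R : Type*} [Ring R]

theorem id1 (z a b : R) : z * (a - b) = z * a + (-z) * b := by
  rw [mul_sub, neg_mul, sub_eq_add_neg]

theorem id2 (z a b : R) : -(z * (a - b)) = (-z) * a + z * b := by
  rw [mul_sub, neg_mul]; abel

theorem id3 (z a b : R) : (a - b) * z = a * z + b * (-z) := by
  rw [sub_mul, mul_neg, sub_eq_add_neg]

theorem id4 (z a b : R) : -((a - b) * z) = a * (-z) + b * z := by
  rw [sub_mul, mul_neg]; abel

theorem id5 (a b c d : R) : a * c - b * d = (a - b) * c + b * (c - d) := by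
  rw [sub_mul, mul_sub]; abel

theorem id6 (a b c d : R) : b * d - a * c = -((a - b) * c) + -(b * (c - d)) := by
  rw [sub_mul, mul_sub]; abel

theorem id7 (a b c d : R) : (a - b) * (c - d) = a * c + b * d - (a * d + b * c) := by
  rw [sub_mul, mul_sub, mul_sub]; abel

end ids

/-- the letters -/
abbrev Lt (N : ℕ) : Type := {p : Fin N × Fin N // p.1 < p.2}

/-- the defining relations -/
def Rel (N : ℕ) (u v : FreeAlgebra ℤ (Lt N)) : Prop :=
  (∃ p : Lt N, u = FreeAlgebra.ι ℤ p * FreeAlgebra.ι ℤ p ∧ v = 0) ∨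
  (∃ p q s : Lt N, p.1.2 = q.1.1 ∧ s.1.1 = p.1.1 ∧ s.1.2 = q.1.2 ∧
    u = FreeAlgebra.ι ℤ p * FreeAlgebra.ι ℤ q ∧
    v = FreeAlgebra.ι ℤ s * FreeAlgebra.ι ℤ p + FreeAlgebra.ι ℤ q * FreeAlgebra.ι ℤ s) ∨
  (∃ p q s : Lt N, p.1.2 = q.1.1 ∧ s.1.1 = p.1.1 ∧ s.1.2 = q.1.2 ∧
    u = FreeAlgebra.ι ℤ q * FreeAlgebra.ι ℤ p ∧
    v = FreeAlgebra.ι ℤ p * FreeAlgebra.ι ℤ s + FreeAlgebra.ι ℤ s * FreeAlgebra.ι ℤ q) ∨
  (∃ p q : Lt N, p.1.1 ≠ q.1.1 ∧ p.1.1 ≠ q.1.2 ∧ p.1.2 ≠ q.1.1 ∧ p.1.2 ≠ q.1.2 ∧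
    u = FreeAlgebra.ι ℤ p * FreeAlgebra.ι ℤ q ∧
    v = FreeAlgebra.ι ℤ q * FreeAlgebra.ι ℤ p)

/-- the Fomin–Kirillov algebra -/
abbrev E (N : ℕ) : Type := RingQuot (Rel N)

/-- the letter `p` in `E N` -/
def lt {N : ℕ} (p : Lt N) : E N := RingQuot.mkRingHom (Rel N) (FreeAlgebra.ι ℤ p)

/-- the sums of words -/
def posE (N : ℕ) : Subsemiring (E N) := Subsemiring.closure (Set.range (lt (N := N)))

theorem lt_mem {N : ℕ} (p : Lt N) : lt p ∈ posE N := Subsemiring.subset_closure ⟨p, rfl⟩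

/-- every element of `E N` is a difference of sums of words -/
theorem exists_sub {N : ℕ} (z : E N) : ∃ a ∈ posE N, ∃ b ∈ posE N, z = a - b := by
  obtain ⟨w, rfl⟩ := RingQuot.mkRingHom_surjective (Rel N) z
  induction w using FreeAlgebra.induction with
  | grade0 r =>
    have h : RingQuot.mkRingHom (Rel N) (algebraMap ℤ (FreeAlgebra ℤ (Lt N)) r) = (r : E N) := by
      simp
    rw [h]
    rcases le_total 0 r with hr | hr
    · obtain ⟨n, rfl⟩ := Int.eq_ofNat_of_zero_le hr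
      exact ⟨(n : E N), natCast_mem _ n, 0, zero_mem _, by simp⟩
    · obtain ⟨n, hn⟩ := Int.eq_ofNat_of_zero_le (neg_nonneg.2 hr)
      refine ⟨0, zero_mem _, (n : E N), natCast_mem _ n, ?_⟩
      have : r = -(n : ℤ) := by omega
      rw [this]; simp
  | grade1 p => exact ⟨lt p, lt_mem p, 0, zero_mem _, by simp [lt]⟩
  | mul a b ha hb =>
    obtain ⟨a1, h1, a2, h2, ha⟩ := ha
    obtain ⟨b1, h3, b2, h4, hb⟩ := hb
    refine ⟨a1 * b1 + a2 * b2, add_mem (mul_mem h1 h3) (mul_mem h2 h4), a1 * b2 + a2 * b1,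
      add_mem (mul_mem h1 h4) (mul_mem h2 h3), ?_⟩
    rw [map_mul, ha, hb, id7]
  | add a b ha hb =>
    obtain ⟨a1, h1, a2, h2, ha⟩ := ha
    obtain ⟨b1, h3, b2, h4, hb⟩ := hb
    refine ⟨a1 + b1, add_mem h1 h3, a2 + b2, add_mem h2 h4, ?_⟩
    rw [map_add, ha, hb]
    abel

theorem lin_mul {N : ℕ} {z : E N} (h1 : z ∈ posE N) (h2 : -z ∈ posE N) (w : E N) :
    z * w ∈ posE N ∧ -(z * w) ∈ posE N := by
  obtain ⟨a, ha, b, hb, rfl⟩ := exists_sub w
  constructor
  · rw [id1]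
    exact add_mem (mul_mem h1 ha) (mul_mem h2 hb)
  · rw [id2]
    exact add_mem (mul_mem h2 ha) (mul_mem h1 hb)

theorem mul_lin {N : ℕ} {z : E N} (h1 : z ∈ posE N) (h2 : -z ∈ posE N) (w : E N) :
    w * z ∈ posE N ∧ -(w * z) ∈ posE N := by
  obtain ⟨a, ha, b, hb, rfl⟩ := exists_sub w
  constructor
  · rw [id3]
    exact add_mem (mul_mem ha h1) (mul_mem hb h2)
  · rw [id4]
    exact add_mem (mul_mem ha h2) (mul_mem hb h1)

/-- congruence modulo the ideal `posE ∩ -posE` -/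
def con (N : ℕ) : RingCon (E N) where
  r u v := u - v ∈ posE N ∧ v - u ∈ posE N
  iseqv := by
    refine ⟨fun u => by simp [zero_mem], fun h => ⟨h.2, h.1⟩, fun {u v w} h1 h2 => ?_⟩
    refine ⟨?_, ?_⟩
    · have : u - w = (u - v) + (v - w) := by abel
      rw [this]; exact add_mem h1.1 h2.1
    · have : w - u = (w - v) + (v - u) := by abel
      rw [this]; exact add_mem h2.2 h1.2
  add' := by
    intro a b c d h1 h2
    refine ⟨?_, ?_⟩
    · have : a + c - (b + d) = (a - b) + (c - d) := by abel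
      rw [this]; exact add_mem h1.1 h2.1
    · have : b + d - (a + c) = (b - a) + (d - c) := by abel
      rw [this]; exact add_mem h1.2 h2.2
  mul' := by
    intro a b c d h1 h2
    have e1 := id5 a b c d
    have e2 := id6 a b c d
    have k1 := lin_mul (z := a - b) h1.1 (by rw [neg_sub]; exact h1.2) c
    have k2 := mul_lin (z := c - d) h2.1 (by rw [neg_sub]; exact h2.2) b
    exact ⟨by rw [e1]; exact add_mem k1.1 k2.1, by rw [e2]; exact add_mem k1.2 k2.2⟩

/-- the pointed quotient -/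
def A (N : ℕ) : Type := (con N).Quotient

instance instRingA (N : ℕ) : Ring (A N) := inferInstanceAs (Ring (con N).Quotient)

/-- the projection -/
def toA (N : ℕ) : E N →+* A N := (con N).mk'

/-- the letter `x_ab` of `A N`, antisymmetric in the indices -/
def X {N : ℕ} (a b : Fin N) : A N :=
  if h : a < b then toA N (lt ⟨(a, b), h⟩) else
    if h : b < a then -toA N (lt ⟨(b, a), h⟩) else 0

/-- the cone of the sums of words -/
def P (N : ℕ) : Subsemiring (A N) :=
  Subsemiring.closure {z | ∃ a b : Fin N, a < b ∧ z = X a b}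

/-- the Dunkl element -/
def θ {N : ℕ} (i : Fin N) : A N := ∑ j, X i j

end Pool.Agent.FKP
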