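import Pool.Agent.FKP.Base

/-!
# FKP: homomorphisms out of `A N`; the Dunkl elements commute; evaluation at the Dunkl elements
-/

set_option autoImplicit false

open Finset

noncomputable section

namespace Pool.Agent.FKP

variable {N : ℕ}

/-- universal property of `A N` -/
theorem exists_lift {T : Type} [Ring T] (Q : Subsemiring T) (hQ : ∀ z, z ∈ Q → -z ∈ Q → z = 0)
    (y : Fin N → Fin N → T) (hy : ∀ a b, a < b → y a b ∈ Q)
    (h1 : ∀ a b, a < b → y a b * y a b = 0)
    (h2 : ∀ a b c, a < b → b < c → y a b * y b c = y a c * y a b + y b c * y a c)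
    (h3 : ∀ a b c, a < b → b < c → y b c * y a b = y a b * y a c + y a c * y b c)
    (h4 : ∀ a b c d, a < b → c < d → a ≠ c → a ≠ d → b ≠ c → b ≠ d →
      y a b * y c d = y c d * y a b) :
    ∃ f : A N →+* T, (∀ a b, a < b → f (X a b) = y a b) ∧ ∀ z ∈ P N, f z ∈ Q := by
  let g : FreeAlgebra ℤ (Lt N) →+* T :=
    (FreeAlgebra.lift ℤ (fun p : Lt N => y p.1.1 p.1.2)).toRingHom
  have hg : ∀ p : Lt N, g (FreeAlgebra.ι ℤ p) = y p.1.1 p.1.2 := fun p =>
    FreeAlgebra.lift_ι_apply _ _
  have hr : ∀ ⦃u v : FreeAlgebra ℤ (Lt N)⦄, Rel N u v → g u = g v := by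
    rintro u v (⟨p, rfl, rfl⟩ | ⟨p, q, s, e1, e2, e3, rfl, rfl⟩ | ⟨p, q, s, e1, e2, e3, rfl, rfl⟩ |
      ⟨p, q, e1, e2, e3, e4, rfl, rfl⟩)
    · rw [map_mul, hg, h1 _ _ p.2, map_zero]
    · obtain ⟨⟨a, b⟩, hab⟩ := p
      obtain ⟨⟨b', c⟩, hbc⟩ := q
      obtain ⟨⟨a', c'⟩, hac⟩ := s
      dsimp only at e1 e2 e3
      subst e1 e2 e3
      rw [map_mul, map_add, map_mul, map_mul, hg, hg, hg]
      exact h2 _ _ _ hab hbc
    · obtain ⟨⟨a, b⟩, hab⟩ := p
      obtain ⟨⟨b', c⟩, hbc⟩ := q
      obtain ⟨⟨a', c'⟩, hac⟩ := s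
      dsimp only at e1 e2 e3
      subst e1 e2 e3
      rw [map_mul, map_add, map_mul, map_mul, hg, hg, hg]
      exact h3 _ _ _ hab hbc
    · rw [map_mul, map_mul, hg, hg]
      exact h4 _ _ _ _ p.2 q.2 e1 e2 e3 e4
  let f0 : E N →+* T := RingQuot.lift ⟨g, hr⟩
  have hf0 : ∀ p : Lt N, f0 (lt p) = y p.1.1 p.1.2 := fun p => by
    have := RingQuot.lift_mkRingHom_apply g hr (FreeAlgebra.ι ℤ p)
    exact this.trans (hg p)
  have hpos : ∀ z ∈ posE N, f0 z ∈ Q := by
    have : posE N ≤ Q.comap f0 := by
      refine Subsemiring.closure_le.2 ?_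
      rintro _ ⟨p, rfl⟩
      show f0 (lt p) ∈ Q
      rw [hf0]; exact hy _ _ p.2
    exact fun z hz => this hz
  have hle : con N ≤ RingCon.ker f0 := by
    intro u v h
    have h1 := hpos _ h.1
    have h2 := hpos _ h.2
    rw [map_sub] at h1 h2
    show f0 u = f0 v
    rw [← sub_eq_zero]
    exact hQ _ h1 (by rw [neg_sub]; exact h2)
  let f : A N →+* T := (con N).lift f0 hle
  have hf : ∀ u, f (toA N u) = f0 u := fun u => RingCon.lift_mk' (c := con N) (f := f0) hle u
  refine ⟨f, fun a b hab => ?_, fun z hz => ?_⟩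
  · rw [X_lt hab, hf, hf0]
  · obtain ⟨u, hu, rfl⟩ := mem_P.1 hz
    rw [hf]; exact hpos u hu

/-! ### the Dunkl elements commute -/

theorem theta_comm (i j : Fin N) : θ i * θ j = (θ j * θ i : A N) := by
  classical
  rcases eq_or_ne i j with rfl | hij
  · rfl
  -- the commutator as a sum over the third index
  have key : ∀ m : Fin N, m ≠ i → m ≠ j →
      (X i m * X j m - X j m * X i m) + (X i j * X j m - X j m * X i j) +
        (X i m * X j i - X j i * X i m) = (0 : A N) := by
    intro m hmi hmj
    have t1 := X_tri (N := N) hij hmj.symm hmi.symm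
    have t2 := X_tri (N := N) hij.symm hmi.symm hmj.symm
    rw [X_neg i m] at t1
    rw [X_neg j m, X_neg i j] at t2
    rw [X_neg i j]
    have e : (X i m * X j m - X j m * X i m) + (X i j * X j m - X j m * X i j) +
        (X i m * -X i j - -X i j * X i m) =
        (X i j * X j m + X j m * -X i m + -X i m * X i j) -
          (-X i j * X i m + X i m * -X j m + -X j m * -X i j) := by
      simp only [mul_neg, neg_mul, neg_neg]
      abel
    rw [e, t1, t2, sub_zero]
  have h0 : θ i * θ j - θ j * θ i = (0 : A N) := by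
    have e1 : θ i * θ j - θ j * θ i =
        ∑ k : Fin N, ∑ l : Fin N, (X i k * X j l - X j l * X i k : A N) := by
      simp only [θ, sum_mul_sum, sum_sub_distrib]
      congr 1
      exact sum_comm
    rw [e1]
    -- the terms with `{i, k}` and `{j, l}` disjoint vanish
    have e2 : ∀ k l : Fin N, (X i k * X j l - X j l * X i k : A N) =
        (if k = l then X i k * X j k - X j k * X i k else 0) +
        (if k = j then X i j * X j l - X j l * X i j else 0) +
        (if l = i then X i k * X j i - X j i * X i k else 0) -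
        (if k = j ∧ l = i then X i j * X j i - X j i * X i j else 0) -
        (if k = l ∧ l = i then X i i * X j i - X j i * X i i else 0) -
        (if k = l ∧ l = j then X i j * X j j - X j j * X i j else 0) := by
      intro k l
      by_cases hkl : k = l
      · subst hkl
        by_cases hkj : k = j
        · subst hkj; simp [hij.symm, X_self]
        · by_cases hki : k = i
          · subst hki; simp [hkj, X_self]
          · simp [hkj, hki]
      · by_cases hkj : k = j
        · subst hkj
          by_cases hli : l = i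
          · subst hli; simp [hkl]
          · simp [hkl, hli]
        · by_cases hli : l = i
          · subst hli; simp [hkl, hkj]
          · have : X i k * X j l = (X j l * X i k : A N) :=
              X_comm hij (Ne.symm hli) hkj hkl
            simp [hkl, hkj, hli, this]
    rw [sum_congr rfl fun k _ => sum_congr rfl fun l _ => e2 k l]
    have s1 : ∑ k : Fin N, ∑ l : Fin N,
        (if k = l then X i k * X j k - X j k * X i k else (0 : A N)) =
        ∑ m : Fin N, (X i m * X j m - X j m * X i m) := by
      refine sum_congr rfl fun k _ => ?_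
      simp
    have s2 : ∑ k : Fin N, ∑ l : Fin N,
        (if k = j then X i j * X j l - X j l * X i j else (0 : A N)) =
        ∑ m : Fin N, (X i j * X j m - X j m * X i j) := by
      rw [sum_comm]
      refine sum_congr rfl fun k _ => ?_
      simp
    have s3 : ∑ k : Fin N, ∑ l : Fin N,
        (if l = i then X i k * X j i - X j i * X i k else (0 : A N)) =
        ∑ m : Fin N, (X i m * X j i - X j i * X i m) := by
      refine sum_congr rfl fun k _ => ?_
      simp
    have s4 : ∑ k : Fin N, ∑ l : Fin N,
        (if k = j ∧ l = i then X i j * X j i - X j i * X i j else (0 : A N)) = 0 := by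
      refine sum_eq_zero fun k _ => sum_eq_zero fun l _ => ?_
      split_ifs
      · rw [X_neg i j, mul_neg, neg_mul, sub_self]
      · rfl
    have s5 : ∑ k : Fin N, ∑ l : Fin N,
        (if k = l ∧ l = i then X i i * X j i - X j i * X i i else (0 : A N)) = 0 := by
      refine sum_eq_zero fun k _ => sum_eq_zero fun l _ => ?_
      split_ifs
      · simp [X_self]
      · rfl
    have s6 : ∑ k : Fin N, ∑ l : Fin N,
        (if k = l ∧ l = j then X i j * X j j - X j j * X i j else (0 : A N)) = 0 := by
      refine sum_eq_zero fun k _ => sum_eq_zero fun l _ => ?_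
      split_ifs
      · simp [X_self]
      · rfl
    have e3 : ∀ f1 f2 f3 f4 f5 f6 : Fin N → Fin N → A N,
        ∑ k, ∑ l, (f1 k l + f2 k l + f3 k l - f4 k l - f5 k l - f6 k l) =
          ∑ k, ∑ l, f1 k l + ∑ k, ∑ l, f2 k l + ∑ k, ∑ l, f3 k l - ∑ k, ∑ l, f4 k l -
            ∑ k, ∑ l, f5 k l - ∑ k, ∑ l, f6 k l := by
      intro f1 f2 f3 f4 f5 f6
      simp only [sum_add_distrib, sum_sub_distrib]
    rw [e3, s1, s2, s3, s4, s5, s6]
    simp only [sub_zero]
    rw [← sum_add_distrib, ← sum_add_distrib]
    refine sum_eq_zero fun m _ => ?_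
    by_cases hmi : m = i
    · subst hmi
      rw [X_self, X_neg m j]
      simp
    · by_cases hmj : m = j
      · subst hmj
        rw [X_self, X_neg i m]
        simp
      · exact key m hmi hmj
  exact sub_eq_zero.1 h0

/-- the Dunkl elements generate a commutative ring -/
theorem theta_comm' : ∀ a ∈ Set.range (θ (N := N)), ∀ b ∈ Set.range (θ (N := N)),
    a * b = b * a := by
  rintro _ ⟨i, rfl⟩ _ ⟨j, rfl⟩
  exact theta_comm i j

/-- evaluation of a polynomial at the Dunkl elements -/
def ev (N : ℕ) : MvPolynomial (Fin N) ℤ →+* A N :=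
  letI : CommRing (Subring.closure (Set.range (θ (N := N)))) :=
    Subring.closureCommRingOfComm theta_comm'
  (Subring.closure (Set.range (θ (N := N)))).subtype.comp
    (MvPolynomial.eval₂Hom (Int.castRingHom _)
      (fun i => ⟨θ i, Subring.subset_closure ⟨i, rfl⟩⟩))

@[simp] theorem ev_X (i : Fin N) : ev N (MvPolynomial.X i) = θ i := by
  letI : CommRing (Subring.closure (Set.range (θ (N := N)))) :=
    Subring.closureCommRingOfComm theta_comm'
  simp [ev]

theorem ev_C (c : ℤ) : ev N (MvPolynomial.C c) = (c : A N) := by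
  have : (MvPolynomial.C c : MvPolynomial (Fin N) ℤ) = (c : MvPolynomial (Fin N) ℤ) := by simp
  rw [this, map_intCast]

theorem ev_comm (p q : MvPolynomial (Fin N) ℤ) : ev N p * ev N q = ev N q * ev N p := by
  rw [← map_mul, mul_comm, map_mul]

/-- two homomorphisms on `MvPolynomial` with values in a (non commutative) ring agree if they
agree on the variables -/
theorem hom_ext {T : Type} [Ring T] {f g : MvPolynomial (Fin N) ℤ →+* T}
    (h : ∀ i, f (MvPolynomial.X i) = g (MvPolynomial.X i)) : f = g := by
  refine RingHom.ext fun p => ?_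
  induction p using MvPolynomial.induction_on with
  | C c =>
    have : (MvPolynomial.C c : MvPolynomial (Fin N) ℤ) = (c : MvPolynomial (Fin N) ℤ) := by simp
    rw [this, map_intCast, map_intCast]
  | add p q hp hq => rw [map_add, map_add, hp, hq]
  | mul_X p i hp => rw [map_mul, map_mul, hp, h]

end Pool.Agent.FKP
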