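import Pool.Agent.FKP.Ev

/-!
# FKP: the form of the problem file

`ev (n + 1) p ∈ P (n + 1)` implies the conclusion of the frozen statement for the polynomial `p`.
-/

set_option autoImplicit false

open Finset

noncomputable section

namespace Pool.Agent.FKP

variable {N : ℕ}

/-- the Dunkl element as a sum over the letters -/
theorem theta_eq (j : Fin N) :
    (∑ p : Lt N, if p.1.2 = j then -toA N (lt p) else if p.1.1 = j then toA N (lt p) else 0) =
      θ j := by
  classical
  let g : Fin N → Fin N → A N := fun a b => if a < b then X a b else 0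
  have h1 : ∀ p : Lt N, (if p.1.2 = j then -toA N (lt p) else
      if p.1.1 = j then toA N (lt p) else 0) =
      (fun q : Fin N × Fin N => if q.2 = j then -g q.1 q.2 else
        if q.1 = j then g q.1 q.2 else 0) p.1 := by
    rintro ⟨⟨a, b⟩, hab⟩
    have hab' : a < b := hab
    simp only [g, if_pos hab', X_lt hab']
  rw [Finset.sum_congr rfl fun p _ => h1 p]
  have h2 : ∑ p : Lt N, (fun q : Fin N × Fin N => if q.2 = j then -g q.1 q.2 else
        if q.1 = j then g q.1 q.2 else 0) p.1 =
      ∑ q ∈ univ.filter (fun q : Fin N × Fin N => q.1 < q.2), (if q.2 = j then -g q.1 q.2 else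
        if q.1 = j then g q.1 q.2 else 0) := by
    exact (Finset.sum_subtype (univ.filter fun q : Fin N × Fin N => q.1 < q.2)
      (fun q => by simp) (fun q : Fin N × Fin N => if q.2 = j then -g q.1 q.2 else
        if q.1 = j then g q.1 q.2 else 0)).symm
  rw [h2, Finset.sum_filter]
  have h3 : ∀ q : Fin N × Fin N, (if q.1 < q.2 then (if q.2 = j then -g q.1 q.2 else
        if q.1 = j then g q.1 q.2 else 0) else 0) =
      (if q.2 = j then -g q.1 q.2 else 0) + (if q.1 = j then g q.1 q.2 else 0) := by
    rintro ⟨a, b⟩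
    simp only [g]
    by_cases hab : a < b
    · by_cases hb : b = j
      · have ha : ¬ a = j := fun h => by rw [h, hb] at hab; exact lt_irrefl _ hab
        rw [if_pos hab, if_pos hb, if_pos hb, if_neg ha, add_zero]
      · rw [if_pos hab, if_neg hb, if_neg hb, zero_add]
    · simp [hab]
  rw [Finset.sum_congr rfl fun q _ => h3 q, Finset.sum_add_distrib, ← Finset.univ_product_univ,
    Finset.sum_product, Finset.sum_product, Finset.sum_comm (f := fun a b => if a = j then g a b else 0)]
  simp only [Finset.sum_ite_eq', Finset.mem_univ, if_true]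
  rw [← Finset.sum_add_distrib, θ]
  refine Finset.sum_congr rfl fun b _ => ?_
  simp only [g]
  rcases lt_trichotomy j b with h | h | h
  · rw [if_pos h, if_neg (not_lt.2 h.le), neg_zero, zero_add]
  · subst h; simp [X_self]
  · rw [if_neg (not_lt.2 h.le), if_pos h, add_zero, X_neg j b, neg_neg]

/-- the sums of words, as lists -/
theorem exists_list {z : E N} (h : z ∈ posE N) :
    ∃ L : List (List (Lt N)), z = RingQuot.mkRingHom (Rel N)
      ((L.map (fun u => (u.map (fun p => FreeAlgebra.ι ℤ p)).prod)).sum) := by
  rw [posE, Subsemiring.mem_closure_iff_exists_list] at h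
  obtain ⟨L, hL, rfl⟩ := h
  have key : ∀ L : List (List (E N)), (∀ t ∈ L, ∀ y ∈ t, y ∈ Set.range (lt (N := N))) →
      ∃ M : List (List (Lt N)), (L.map List.prod).sum = RingQuot.mkRingHom (Rel N)
        ((M.map (fun u => (u.map (fun p => FreeAlgebra.ι ℤ p)).prod)).sum) := by
    intro L
    induction L with
    | nil => exact fun _ => ⟨[], by simp⟩
    | cons t L ih =>
      intro h
      obtain ⟨M, hM⟩ := ih fun t' ht' => h t' (List.mem_cons_of_mem _ ht')
      have key2 : ∀ t : List (E N), (∀ y ∈ t, y ∈ Set.range (lt (N := N))) →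
          ∃ u : List (Lt N), t.prod =
            RingQuot.mkRingHom (Rel N) (u.map (fun p => FreeAlgebra.ι ℤ p)).prod := by
        intro t
        induction t with
        | nil => exact fun _ => ⟨[], by simp⟩
        | cons y t ih2 =>
          intro h
          obtain ⟨u, hu⟩ := ih2 fun y' hy' => h y' (List.mem_cons_of_mem _ hy')
          obtain ⟨p, hp⟩ := h y (List.mem_cons_self ..)
          refine ⟨p :: u, ?_⟩
          rw [List.prod_cons, hu, ← hp, List.map_cons, List.prod_cons, map_mul]
          rfl
      obtain ⟨u, hu⟩ := key2 t (h t (List.mem_cons_self ..))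
      refine ⟨u :: M, ?_⟩
      rw [List.map_cons, List.sum_cons, hM, hu, List.map_cons, List.sum_cons, map_add]
  exact key L hL

/-- the conclusion of the frozen statement -/
theorem frz {n : ℕ} {p : MvPolynomial (Fin (n + 1)) ℤ} (h : ev (n + 1) p ∈ P (n + 1)) :
    ∃ L : List (List {p : Fin (n + 1) × Fin (n + 1) // p.1 < p.2}),
      RingQuot.mkRingHom (Rel (n + 1))
        (∑ m ∈ p.support, p.coeff m •
          (List.ofFn (fun j : Fin (n + 1) =>
            (∑ p : {p : Fin (n + 1) × Fin (n + 1) // p.1 < p.2},
              (if p.1.2 = j then -FreeAlgebra.ι ℤ p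
               else if p.1.1 = j then FreeAlgebra.ι ℤ p else 0)) ^ m j)).prod) =
      RingQuot.mkRingHom (Rel (n + 1))
        ((L.map (fun u => (u.map (fun p => FreeAlgebra.ι ℤ p)).prod)).sum) := by
  refine exists_list (posE_of_toA ?_)
  have hθ : ∀ j : Fin (n + 1), toA (n + 1) (RingQuot.mkRingHom (Rel (n + 1))
      (∑ p : {p : Fin (n + 1) × Fin (n + 1) // p.1 < p.2},
        (if p.1.2 = j then -FreeAlgebra.ι ℤ p
         else if p.1.1 = j then FreeAlgebra.ι ℤ p else 0))) = θ j := by
    intro j
    rw [map_sum, map_sum, ← theta_eq j]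
    refine Finset.sum_congr rfl fun q _ => ?_
    split_ifs
    · rw [map_neg, map_neg]; rfl
    · rfl
    · rw [map_zero, map_zero]
  have hmain : toA (n + 1) (RingQuot.mkRingHom (Rel (n + 1))
        (∑ m ∈ p.support, p.coeff m •
          (List.ofFn (fun j : Fin (n + 1) =>
            (∑ p : {p : Fin (n + 1) × Fin (n + 1) // p.1 < p.2},
              (if p.1.2 = j then -FreeAlgebra.ι ℤ p
               else if p.1.1 = j then FreeAlgebra.ι ℤ p else 0)) ^ m j)).prod)) =
      ev (n + 1) p := by
    conv_rhs => rw [p.as_sum, map_sum]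
    rw [map_sum, map_sum]
    refine Finset.sum_congr rfl fun m _ => ?_
    rw [map_zsmul, map_zsmul, map_list_prod, map_list_prod, List.map_ofFn, List.map_ofFn]
    have h1 : (MvPolynomial.monomial m (p.coeff m) : MvPolynomial (Fin (n + 1)) ℤ) =
        p.coeff m • (List.ofFn fun j : Fin (n + 1) => MvPolynomial.X j ^ m j).prod := by
      rw [List.prod_ofFn, MvPolynomial.monomial_eq, Finsupp.prod_fintype _ _ (by simp),
        zsmul_eq_mul]
      congr 1
    rw [h1, map_zsmul, map_list_prod, List.map_ofFn]
    congr 2
    congr 1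
    funext j
    simp only [Function.comp_apply, map_pow, hθ, ev_X]
  rw [hmain]
  exact h

end Pool.Agent.FKP
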