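import Pool.Agent.FKP.StmtsS
import Pool.Agent.FKP.Frz
import Pool.Agent.Helper45_FKP.GLM
import Pool.Agent.Helper86_FKP.Glg
import Pool.Agent.Helper86_FKP.Brg
import Pool.Agent.Helper86_FKP.Col
import Pool.Agent.Helper20_FKP.Dug
import Pool.Agent.Helper20_FKP.Pie
import Pool.Agent.Helper35_FKP.Skg
import Pool.Agent.Helper35_FKP.Skw
import Pool.Agent.Helper3_FKP.Rct
import Pool.Agent.Helper3_FKP.Asc
import Pool.Agent.Helper77_FKP.Ddi
import Pool.Agent.Helper76_FKP.Cyc
import Pool.Agent.Helper71_FKP.Dua
import Pool.Agent.Helper71_FKP.Str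
import Pool.Agent.Helper75_FKP.Gl
import Pool.Agent.Helper2_FKP.Top
import Pool.Agent.Helper2_FKP.Tee
import Pool.Agent.Helper65_FKP.SYM
import Pool.Agent.Helper9_FKP.GLU
import Pool.Agent.Helper17_FKP.Aut

/-!
# FKP: the modules without hypotheses
-/

set_option autoImplicit false

open Finset Equiv

noncomputable section

namespace Pool.Agent.FKP.Fin1

theorem str : StrStmt := H71.str
theorem col : ColStmt := H86.col
theorem pie : PieStmt := H20.pie str col
theorem tee : TeeStmt := H2.tee (H20.pix str col)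
theorem aut : AutStmt := H17.aut
theorem top : TopStmt := H2.top
theorem cyc : CycStmt := H76.cyc top ddi
theorem skw : SkwStmt := H35.skw
theorem gls : GlsStmt := H75.gls skw top cyc ddi
theorem glr : GlrStmt := H75.glr skw top cyc ddi
theorem glm : GlmStmt := H45.glm pie H9.glu
theorem skg : SkgStmt := H35.skg pie H3.rct
theorem glg : GlgStmt := H86.glg gls glr H3.asc H65.sym glm pie
theorem dug : DugStmt := H20.dug pie (H71.dua top ddi) aut

end Pool.Agent.FKP.Fin1
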