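import Pool.Agent.Helper35_FKP.All
import Pool.Agent.FKP.Frz

/-!
# FKP: the final definitions

`Q1 N w`: for the Schubert polynomial of `w`, the value at the Dunkl elements of the
Fomin–Kirillov algebra `E N` is a sum of words (the conclusion of the problem for `w`).
`Cls B N w`: the class of permutations generated by `B` and by explicit ones.
-/

set_option autoImplicit false

open Finset Equiv

noncomputable section

namespace Pool.Agent.FKP

/-- the Dunkl element of the Fomin–Kirillov algebra -/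
def dunkl {N : ℕ} (j : Fin N) : E N :=
  ∑ p : Lt N, if p.1.2 = j then -lt p else if p.1.1 = j then lt p else 0

/-- the value of a polynomial at the Dunkl elements -/
def evE (N : ℕ) (p : MvPolynomial (Fin N) ℤ) : E N :=
  ∑ m ∈ p.support, p.coeff m • (List.ofFn fun j : Fin N => dunkl j ^ m j).prod

/-- `z` is a finite sum of words in the letters -/
def SumWords (N : ℕ) (z : E N) : Prop :=
  ∃ L : List (List (Lt N)), z = (L.map fun u => (u.map lt).prod).sum

/-- `w` satisfies Q1: the value of its Schubert polynomial is a sum of words -/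
def Q1 (N : ℕ) (w : Perm (Fin N)) : Prop := ∀ S, IsSch N S → SumWords N (evE N (S w))

/-- `f(-x_N, .., -x_1)` -/
def revp {N : ℕ} (f : MvPolynomial (Fin N) ℤ) : MvPolynomial (Fin N) ℤ :=
  MvPolynomial.eval₂ MvPolynomial.C (fun i => -MvPolynomial.X (Fin.rev i)) f

/-- the basic polynomials: the elementary symmetric polynomials `e_k(x_1, .., x_j)`,
the differences `e_p(x_1, .., x_M) e_q(x_1, .., x_(M-r)) - e_(p+q)(x_1, .., x_M)`, `r ≤ p`, `1 ≤ q`,
and the polynomials obtained from them by `f ↦ f(-x_N, .., -x_1)` -/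
inductive Bas : ∀ N : ℕ, MvPolynomial (Fin N) ℤ → Prop
  | e (N j k : ℕ) : j ≤ N → Bas N (ek N j k)
  | t (N M r p q : ℕ) : r ≤ p → 1 ≤ q → r ≤ M → M ≤ N →
      Bas N (ek N M p * ek N (M - r) q - ek N M (p + q))
  | d {N : ℕ} {f : MvPolynomial (Fin N) ℤ} : Bas N f → Bas N (revp f)

/-- The class generated by `B`: identity, products (modulo `Isy`) with a basic polynomial or with
each other, skew sums, glueing, conjugation with the longest element. -/
inductive Cls (B : ∀ N : ℕ, Perm (Fin N) → Prop) : ∀ N : ℕ, Perm (Fin N) → Prop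
  | base {N : ℕ} {w : Perm (Fin N)} : B N w → Cls B N w
  | one (N : ℕ) : Cls B N 1
  | mul {N : ℕ} {u w : Perm (Fin N)} (f : MvPolynomial (Fin N) ℤ) : Cls B N u → Bas N f →
      (∀ S, IsSch N S → S w - S u * f ∈ Isy N) → Cls B N w
  | prod {N : ℕ} {u v w : Perm (Fin N)} : Cls B N u → Cls B N v →
      (∀ S, IsSch N S → S w - S u * S v ∈ Isy N) → Cls B N w
  | skew {m s : ℕ} {u : Perm (Fin s)} {v : Perm (Fin m)} : Cls B s u → Cls B m v →
      Cls B (m + s) (skew u v)
  | glue {m s : ℕ} (r : ℕ) {v : Perm (Fin m)} {u : Perm (Fin (m + s))} :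
      (∀ a b : Fin m, a < b → b.val < r → v a < v b) →
      (∀ a b : Fin (m + s), a < b → (u b).val < m → (u a).val < m → u a < u b) →
      (∀ a : Fin (m + s), r + s ≤ a.val → (u a).val < m) →
      Cls B (m + s) u → Cls B m v → Cls B (m + s) (low s v * u)
  | revc {N : ℕ} {w : Perm (Fin N)} : Cls B N w → Cls B N (revc w)

/-- the empty base -/
def noB : ∀ N : ℕ, Perm (Fin N) → Prop := fun _ _ => False

/-- `w` avoids the patterns 1324, 2143 and 3142 -/
def Av {N : ℕ} (w : Perm (Fin N)) : Prop :=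
  ∀ a b c d : Fin N, a < b → b < c → c < d →
    ¬ (w a < w c ∧ w c < w b ∧ w b < w d) ∧
    ¬ (w b < w a ∧ w a < w d ∧ w d < w c) ∧
    ¬ (w b < w d ∧ w d < w a ∧ w a < w c)

/-- all skew components have size at most `c` -/
inductive Sml (c : ℕ) : ∀ N : ℕ, Perm (Fin N) → Prop
  | small {N : ℕ} (w : Perm (Fin N)) : N ≤ c → Sml c N w
  | skew {m s : ℕ} {u : Perm (Fin s)} {v : Perm (Fin m)} : Sml c s u → Sml c m v →
      Sml c (m + s) (skew u v)

/-! ### statements -/

/-- BAS: the basic polynomials are positive. -/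
def BasStmt : Prop := ∀ (N : ℕ) (f : MvPolynomial (Fin N) ℤ), Bas N f → ev N f ∈ P N

/-- QIF: the two forms of Q1. -/
def QifStmt : Prop := ∀ (N : ℕ) (w : Perm (Fin N)), Q1 N w ↔ good N w

/-- CLS: the class theorem. -/
def ClsStmt : Prop := ∀ B : ∀ N : ℕ, Perm (Fin N) → Prop, (∀ N w, B N w → Q1 N w) →
  ∀ N w, Cls B N w → Q1 N w

/-- AVC -/
def AvcStmt : Prop := ∀ (N : ℕ) (w : Perm (Fin N)), Av w → Cls noB N w

/-- SML -/
def SmlStmt : Prop := ∀ (N : ℕ) (w : Perm (Fin N)), Sml 4 N w → Cls noB N w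

end Pool.Agent.FKP
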