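import Pool.Agent.FKP.Ev

/-!
# FKP: killing an index, relabelling along `Fin.succAbove`
-/

set_option autoImplicit false

open Finset

noncomputable section

namespace Pool.Agent.FKP

variable {n : ℕ}

theorem pointed' {N : ℕ} : ∀ z, z ∈ P N → -z ∈ P N → z = 0 := fun _ h1 h2 => pointed h1 h2

/-- relabelling along a strictly monotone map -/
theorem exists_iot {M N : ℕ} (e : Fin M → Fin N) (he : StrictMono e) :
    ∃ f : A M →+* A N, (∀ a b, f (X a b) = X (e a) (e b)) ∧ ∀ z ∈ P M, f z ∈ P N := by
  have hne : ∀ {a b : Fin M}, a ≠ b → e a ≠ e b := fun h => he.injective.ne h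
  obtain ⟨f, hf, hP⟩ := exists_lift (N := M) (P N) pointed' (fun a b => X (e a) (e b))
    (fun a b hab => X_mem (he hab)) (fun a b _ => X_sq _ _)
    (fun a b c hab hbc => X_path (hne hab.ne) (hne hbc.ne) (hne (hab.trans hbc).ne))
    (fun a b c hab hbc => X_path' (hne hab.ne) (hne hbc.ne) (hne (hab.trans hbc).ne))
    (fun a b c d _ _ h1 h2 h3 h4 => X_comm (hne h1) (hne h2) (hne h3) (hne h4))
  refine ⟨f, fun a b => ?_, hP⟩
  rcases lt_trichotomy a b with h | h | h
  · exact hf a b h
  · subst h; rw [X_self, X_self, map_zero]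
  · rw [X_neg b a, map_neg, hf b a h, X_neg (e b) (e a)]

/-- relabelling along `i.succAbove` -/
def iot (i : Fin (n + 1)) : A n →+* A (n + 1) :=
  (exists_iot i.succAbove (Fin.strictMono_succAbove i)).choose

theorem iot_X (i : Fin (n + 1)) (a b : Fin n) :
    iot i (X a b) = X (i.succAbove a) (i.succAbove b) :=
  (exists_iot i.succAbove (Fin.strictMono_succAbove i)).choose_spec.1 a b

theorem iot_P (i : Fin (n + 1)) {z : A n} (hz : z ∈ P n) : iot i z ∈ P (n + 1) :=
  (exists_iot i.succAbove (Fin.strictMono_succAbove i)).choose_spec.2 z hz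

/-- the endomorphism which kills the letters with the index `i` -/
theorem exists_kil {N : ℕ} (i : Fin N) :
    ∃ f : A N →+* A N, (∀ a b, f (X a b) = if a = i ∨ b = i then 0 else X a b) ∧
      ∀ z ∈ P N, f z ∈ P N := by
  obtain ⟨f, hf, hP⟩ := exists_lift (N := N) (P N) pointed'
    (fun a b => if a = i ∨ b = i then 0 else X a b)
    (fun a b hab => by
      split_ifs
      · exact zero_mem _
      · exact X_mem hab)
    (fun a b _ => by
      split_ifs
      · simp
      · exact X_sq _ _)
    (fun a b c hab hbc => by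
      by_cases ha : a = i
      · have hb : b ≠ i := fun h => hab.ne (ha.trans h.symm)
        have hc : c ≠ i := fun h => (hab.trans hbc).ne (ha.trans h.symm)
        simp [ha]
      · by_cases hb : b = i
        · simp [hb]
        · by_cases hc : c = i
          · simp [hc]
          · simp only [ha, hb, hc, or_self, if_false]
            exact X_path hab.ne hbc.ne (hab.trans hbc).ne)
    (fun a b c hab hbc => by
      by_cases ha : a = i
      · simp [ha]
      · by_cases hb : b = i
        · simp [hb]
        · by_cases hc : c = i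
          · simp [hc]
          · simp only [ha, hb, hc, or_self, if_false]
            exact X_path' hab.ne hbc.ne (hab.trans hbc).ne)
    (fun a b c d _ _ h1 h2 h3 h4 => by
      split_ifs
      · simp
      · simp
      · simp
      · exact X_comm h1 h2 h3 h4)
  refine ⟨f, fun a b => ?_, hP⟩
  rcases lt_trichotomy a b with h | h | h
  · exact hf a b h
  · subst h; rw [X_self, map_zero]; split_ifs <;> rfl
  · rw [X_neg b a, map_neg, hf b a h]
    by_cases ha : a = i <;> by_cases hb : b = i <;> simp [ha, hb, X_neg b a]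

/-- the endomorphism of `A N` which kills the letters with the index `i` -/
def kil {N : ℕ} (i : Fin N) : A N →+* A N := (exists_kil i).choose

theorem kil_X {N : ℕ} (i a b : Fin N) : kil i (X a b) = if a = i ∨ b = i then 0 else X a b :=
  (exists_kil i).choose_spec.1 a b

theorem kil_P {N : ℕ} (i : Fin N) {z : A N} (hz : z ∈ P N) : kil i z ∈ P N :=
  (exists_kil i).choose_spec.2 z hz

/-- a word is killed or fixed by `kil i` -/
theorem kil_word {N : ℕ} (i : Fin N) {w : A N} (hw : w ∈ Wd N) : kil i w = w ∨ kil i w = 0 := by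
  induction hw using Submonoid.closure_induction with
  | mem z hz =>
    obtain ⟨a, b, _, rfl⟩ := hz
    rw [kil_X]
    split_ifs
    · exact Or.inr rfl
    · exact Or.inl rfl
  | one => exact Or.inl (map_one _)
  | mul a b _ _ ha hb =>
    rw [map_mul]
    rcases ha with ha | ha
    · rcases hb with hb | hb
      · left; rw [ha, hb]
      · right; rw [hb, mul_zero]
    · right; rw [ha, zero_mul]

/-- `1 - kil i` preserves the cone -/
theorem sub_kil_P {N : ℕ} (i : Fin N) {z : A N} (hz : z ∈ P N) : z - kil i z ∈ P N := by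
  refine P_induction (p := fun z => z - kil i z ∈ P N) ?_ ?_ ?_ hz
  · simp [zero_mem]
  · intro a b ha hb
    have : a + b - kil i (a + b) = (a - kil i a) + (b - kil i b) := by rw [map_add]; abel
    rw [this]; exact add_mem ha hb
  · intro w hw
    rcases kil_word i hw with h | h
    · rw [h, sub_self]; exact zero_mem _
    · rw [h, sub_zero]; exact Wd_le hw

/-- the homomorphism `A (n + 1) → A n` which kills the index `i` -/
theorem exists_kap (i : Fin (n + 1)) :
    ∃ f : A (n + 1) →+* A n, (∀ b, f (X i b) = 0) ∧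
      (∀ a b, f (X (i.succAbove a) (i.succAbove b)) = X a b) ∧
      (∀ z, iot i (f z) = kil i z) ∧ ∀ z ∈ P (n + 1), f z ∈ P n := by
  classical
  let d : Fin (n + 1) → Option (Fin n) := finSuccEquiv' i
  have hd0 : d i = none := finSuccEquiv'_at i
  have hd1 : ∀ a, d (i.succAbove a) = some a := fun a => finSuccEquiv'_succAbove i a
  let y : Fin (n + 1) → Fin (n + 1) → A n := fun a b =>
    (d a).elim 0 fun a' => (d b).elim 0 fun b' => X a' b'
  have hyi : ∀ b, y i b = 0 := fun b => by simp [y, hd0]
  have hyi' : ∀ a, y a i = 0 := fun a => by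
    simp only [y, hd0, Option.elim_none]
    cases d a <;> rfl
  have hy : ∀ a b, y (i.succAbove a) (i.succAbove b) = X a b := fun a b => by simp [y, hd1]
  have hsa : ∀ a : Fin (n + 1), a = i ∨ ∃ a', a = i.succAbove a' := by
    intro a
    by_cases h : a = i
    · exact Or.inl h
    · obtain ⟨a', ha'⟩ := Fin.exists_succAbove_eq h
      exact Or.inr ⟨a', ha'.symm⟩
  have hlt : ∀ {a b : Fin n}, i.succAbove a < i.succAbove b → a < b := fun h =>
    (Fin.strictMono_succAbove i).lt_iff_lt.1 h
  have hne : ∀ {a b : Fin n}, i.succAbove a ≠ i.succAbove b → a ≠ b := fun h h' => h (by rw [h'])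
  obtain ⟨f, hf, hP⟩ := exists_lift (N := n + 1) (P n) pointed' y
    (fun a b hab => by
      rcases hsa a with rfl | ⟨a', rfl⟩
      · rw [hyi]; exact zero_mem _
      · rcases hsa b with rfl | ⟨b', rfl⟩
        · rw [hyi']; exact zero_mem _
        · rw [hy]; exact X_mem (hlt hab))
    (fun a b _ => by
      rcases hsa a with rfl | ⟨a', rfl⟩
      · rw [hyi]; simp
      · rcases hsa b with rfl | ⟨b', rfl⟩
        · rw [hyi']; simp
        · rw [hy]; exact X_sq _ _)
    (fun a b c hab hbc => by
      rcases hsa a with rfl | ⟨a', rfl⟩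
      · simp [hyi]
      · rcases hsa b with rfl | ⟨b', rfl⟩
        · simp [hyi, hyi']
        · rcases hsa c with rfl | ⟨c', rfl⟩
          · simp [hyi']
          · rw [hy, hy, hy]
            exact X_path (hlt hab).ne (hlt hbc).ne ((hlt hab).trans (hlt hbc)).ne)
    (fun a b c hab hbc => by
      rcases hsa a with rfl | ⟨a', rfl⟩
      · simp [hyi]
      · rcases hsa b with rfl | ⟨b', rfl⟩
        · simp [hyi, hyi']
        · rcases hsa c with rfl | ⟨c', rfl⟩
          · simp [hyi']
          · rw [hy, hy, hy]
            exact X_path' (hlt hab).ne (hlt hbc).ne ((hlt hab).trans (hlt hbc)).ne)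
    (fun a b c d' _ _ h1 h2 h3 h4 => by
      rcases hsa a with rfl | ⟨a', rfl⟩
      · simp [hyi]
      · rcases hsa b with rfl | ⟨b', rfl⟩
        · simp [hyi']
        · rcases hsa c with rfl | ⟨c', rfl⟩
          · simp [hyi]
          · rcases hsa d' with rfl | ⟨d'', rfl⟩
            · simp [hyi']
            · rw [hy, hy]
              exact X_comm (hne h1) (hne h2) (hne h3) (hne h4))
  have hfX : ∀ a b, f (X a b) = y a b := by
    intro a b
    rcases lt_trichotomy a b with h | h | h
    · exact hf a b h
    · subst h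
      rw [X_self, map_zero]
      rcases hsa a with rfl | ⟨a', rfl⟩
      · rw [hyi]
      · rw [hy, X_self]
    · rw [X_neg b a, map_neg, hf b a h]
      rcases hsa a with rfl | ⟨a', rfl⟩
      · rw [hyi, hyi', neg_zero]
      · rcases hsa b with rfl | ⟨b', rfl⟩
        · rw [hyi, hyi', neg_zero]
        · rw [hy, hy, X_neg b' a']
  refine ⟨f, fun b => by rw [hfX, hyi], fun a b => by rw [hfX, hy], fun z => ?_, hP⟩
  refine A_induction (p := fun z => iot i (f z) = kil i z) (by simp)
    (fun a b ha hb => by rw [map_add, map_add, map_add, ha, hb])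
    (fun a ha => by rw [map_neg, map_neg, map_neg, ha]) (fun w hw => ?_) z
  induction hw using Submonoid.closure_induction with
  | mem z hz =>
    obtain ⟨a, b, _, rfl⟩ := hz
    rw [hfX, kil_X]
    rcases hsa a with rfl | ⟨a', rfl⟩
    · simp [hyi]
    · rcases hsa b with rfl | ⟨b', rfl⟩
      · simp [hyi']
      · rw [hy, iot_X, if_neg]
        rintro (h | h)
        · exact Fin.succAbove_ne i a' h
        · exact Fin.succAbove_ne i b' h
  | one => simp
  | mul a b _ _ ha hb => rw [map_mul, map_mul, map_mul, ha, hb]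

/-- the homomorphism `A (n + 1) → A n` which kills the index `i` -/
def kap (i : Fin (n + 1)) : A (n + 1) →+* A n := (exists_kap i).choose

theorem kap_X_left (i b : Fin (n + 1)) : kap i (X i b) = 0 := (exists_kap i).choose_spec.1 b

theorem kap_X (i : Fin (n + 1)) (a b : Fin n) :
    kap i (X (i.succAbove a) (i.succAbove b)) = X a b := (exists_kap i).choose_spec.2.1 a b

theorem iot_kap (i : Fin (n + 1)) (z : A (n + 1)) : iot i (kap i z) = kil i z :=
  (exists_kap i).choose_spec.2.2.1 z

theorem kap_P (i : Fin (n + 1)) {z : A (n + 1)} (hz : z ∈ P (n + 1)) : kap i z ∈ P n :=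
  (exists_kap i).choose_spec.2.2.2 z hz

theorem kap_X_right (i a : Fin (n + 1)) : kap i (X a i) = 0 := by
  rw [X_neg i a, map_neg, kap_X_left, neg_zero]

theorem kap_theta_self (i : Fin (n + 1)) : kap i (θ i) = 0 := by
  rw [θ, map_sum]; exact sum_eq_zero fun j _ => kap_X_left i j

theorem kap_theta (i : Fin (n + 1)) (l : Fin n) : kap i (θ (i.succAbove l)) = θ l := by
  rw [θ, map_sum, Fin.sum_univ_succAbove _ i, kap_X_right, zero_add, θ]
  exact sum_congr rfl fun j _ => kap_X i l j

/-- killing the variable `i` of a polynomial -/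
def kilp (i : Fin (n + 1)) : MvPolynomial (Fin (n + 1)) ℤ →+* MvPolynomial (Fin n) ℤ :=
  MvPolynomial.eval₂Hom (MvPolynomial.C)
    (fun a => ((finSuccEquiv' i) a).elim 0 fun a' => MvPolynomial.X a')

theorem kilp_self (i : Fin (n + 1)) : kilp i (MvPolynomial.X i) = 0 := by simp [kilp]

theorem kilp_X (i : Fin (n + 1)) (a : Fin n) :
    kilp i (MvPolynomial.X (i.succAbove a)) = MvPolynomial.X a := by simp [kilp]

theorem kap_ev (i : Fin (n + 1)) (p : MvPolynomial (Fin (n + 1)) ℤ) :
    kap i (ev (n + 1) p) = ev n (kilp i p) := by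
  have : (kap i).comp (ev (n + 1)) = (ev n).comp (kilp i) := by
    refine hom_ext fun a => ?_
    by_cases h : a = i
    · subst h
      simp [kap_theta_self, kilp_self]
    · obtain ⟨a', rfl⟩ := Fin.exists_succAbove_eq h
      simp [kap_theta, kilp_X]
  exact RingHom.congr_fun this p

end Pool.Agent.FKP
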