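import Pool.Agent.FKP.Kap

/-!
# FKP: killing all the indices outside of the range of a strictly monotone map
-/

set_option autoImplicit false

open Finset

noncomputable section

namespace Pool.Agent.FKP

variable {M N : ℕ}

/-- relabelling along a strictly monotone map -/
def iotE (e : Fin M → Fin N) (he : StrictMono e) : A M →+* A N := (exists_iot e he).choose

theorem iotE_X (e : Fin M → Fin N) (he : StrictMono e) (a b : Fin M) :
    iotE e he (X a b) = X (e a) (e b) := (exists_iot e he).choose_spec.1 a b

theorem iotE_P (e : Fin M → Fin N) (he : StrictMono e) {z : A M} (hz : z ∈ P M) :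
    iotE e he z ∈ P N := (exists_iot e he).choose_spec.2 z hz

/-- the endomorphism which kills the letters with an index in `S` -/
theorem exists_kilS (S : Finset (Fin N)) :
    ∃ f : A N →+* A N, ∀ a b, f (X a b) = if a ∈ S ∨ b ∈ S then 0 else X a b := by
  classical
  induction S using Finset.induction_on with
  | empty => exact ⟨RingHom.id _, fun a b => by simp⟩
  | insert i S _ ih =>
    obtain ⟨f, hf⟩ := ih
    refine ⟨(kil i).comp f, fun a b => ?_⟩
    rw [RingHom.comp_apply, hf]
    by_cases h : a ∈ S ∨ b ∈ S
    · rw [if_pos h, map_zero, if_pos]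
      rcases h with h | h
      · exact Or.inl (mem_insert_of_mem h)
      · exact Or.inr (mem_insert_of_mem h)
    · rw [if_neg h, kil_X]
      by_cases h' : a = i ∨ b = i
      · rw [if_pos h', if_pos]
        rcases h' with h' | h'
        · exact Or.inl (h' ▸ mem_insert_self _ _)
        · exact Or.inr (h' ▸ mem_insert_self _ _)
      · rw [if_neg h', if_neg]
        simp only [mem_insert]
        tauto

/-- the endomorphism which kills the letters with an index in `S` -/
def kilS (S : Finset (Fin N)) : A N →+* A N := (exists_kilS S).choose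

theorem kilS_X (S : Finset (Fin N)) (a b : Fin N) :
    kilS S (X a b) = if a ∈ S ∨ b ∈ S then 0 else X a b := (exists_kilS S).choose_spec a b

/-- two homomorphisms out of `A N` agree if they agree on the letters -/
theorem A_hom_ext {T : Type} [Ring T] {f g : A N →+* T}
    (h : ∀ a b : Fin N, a < b → f (X a b) = g (X a b)) : f = g := by
  refine RingHom.ext fun z => ?_
  refine A_induction (p := fun z => f z = g z) (by simp)
    (fun a b ha hb => by rw [map_add, map_add, ha, hb])
    (fun a ha => by rw [map_neg, map_neg, ha]) (fun w hw => ?_) z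
  induction hw using Submonoid.closure_induction with
  | mem z hz =>
    obtain ⟨a, b, hab, rfl⟩ := hz
    exact h a b hab
  | one => simp
  | mul a b _ _ ha hb => rw [map_mul, map_mul, ha, hb]

theorem kilS_P (S : Finset (Fin N)) {z : A N} (hz : z ∈ P N) : kilS S z ∈ P N := by
  have : P N ≤ (P N).comap (kilS S) := by
    refine Subsemiring.closure_le.2 ?_
    rintro _ ⟨a, b, hab, rfl⟩
    show kilS S (X a b) ∈ P N
    rw [kilS_X]
    split_ifs
    · exact zero_mem _
    · exact X_mem hab
  exact this hz

open Classical in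
/-- the partial inverse of `e` -/
def pinv (e : Fin M → Fin N) (a : Fin N) : Option (Fin M) :=
  if h : ∃ a', e a' = a then some h.choose else none

theorem pinv_apply (e : Fin M → Fin N) (he : StrictMono e) (a : Fin M) :
    pinv e (e a) = some a := by
  have h : ∃ a', e a' = e a := ⟨a, rfl⟩
  rw [pinv, dif_pos h]
  exact congrArg some (he.injective h.choose_spec)

theorem pinv_none (e : Fin M → Fin N) {a : Fin N} (h : a ∉ Set.range e) : pinv e a = none := by
  rw [pinv, dif_neg]
  rintro ⟨a', ha'⟩
  exact h ⟨a', ha'⟩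

/-- the homomorphism `A N → A M` which kills the indices outside of the range of `e` -/
theorem exists_kapE (e : Fin M → Fin N) (he : StrictMono e) :
    ∃ f : A N →+* A M, (∀ a b, a ∉ Set.range e ∨ b ∉ Set.range e → f (X a b) = 0) ∧
      (∀ a b, f (X (e a) (e b)) = X a b) ∧ ∀ z ∈ P N, f z ∈ P M := by
  classical
  let y : Fin N → Fin N → A M := fun a b =>
    (pinv e a).elim 0 fun a' => (pinv e b).elim 0 fun b' => X a' b'
  have hy0 : ∀ a b, a ∉ Set.range e ∨ b ∉ Set.range e → y a b = 0 := by
    rintro a b (h | h)
    · simp [y, pinv_none e h]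
    · simp only [y, pinv_none e h, Option.elim_none]
      cases pinv e a <;> rfl
  have hy : ∀ a b, y (e a) (e b) = X a b := fun a b => by simp [y, pinv_apply e he]
  have hsa : ∀ a : Fin N, a ∉ Set.range e ∨ ∃ a', a = e a' := by
    intro a
    by_cases h : a ∈ Set.range e
    · obtain ⟨a', ha'⟩ := h
      exact Or.inr ⟨a', ha'.symm⟩
    · exact Or.inl h
  have hlt : ∀ {a b : Fin M}, e a < e b → a < b := fun h => he.lt_iff_lt.1 h
  have hne : ∀ {a b : Fin M}, e a ≠ e b → a ≠ b := fun h h' => h (by rw [h'])
  obtain ⟨f, hf, hP⟩ := exists_lift (N := N) (P M) pointed' y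
    (fun a b hab => by
      rcases hsa a with h | ⟨a', rfl⟩
      · rw [hy0 _ _ (Or.inl h)]; exact zero_mem _
      · rcases hsa b with h | ⟨b', rfl⟩
        · rw [hy0 _ _ (Or.inr h)]; exact zero_mem _
        · rw [hy]; exact X_mem (hlt hab))
    (fun a b _ => by
      rcases hsa a with h | ⟨a', rfl⟩
      · rw [hy0 _ _ (Or.inl h)]; simp
      · rcases hsa b with h | ⟨b', rfl⟩
        · rw [hy0 _ _ (Or.inr h)]; simp
        · rw [hy]; exact X_sq _ _)
    (fun a b c hab hbc => by
      rcases hsa a with h | ⟨a', rfl⟩
      · simp [hy0 _ _ (Or.inl h)]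
      · rcases hsa b with h | ⟨b', rfl⟩
        · simp [hy0 b c (Or.inl h), hy0 (e a') b (Or.inr h)]
        · rcases hsa c with h | ⟨c', rfl⟩
          · simp [hy0 (e b') c (Or.inr h), hy0 (e a') c (Or.inr h)]
          · rw [hy, hy, hy]
            exact X_path (hlt hab).ne (hlt hbc).ne ((hlt hab).trans (hlt hbc)).ne)
    (fun a b c hab hbc => by
      rcases hsa a with h | ⟨a', rfl⟩
      · simp [hy0 _ _ (Or.inl h)]
      · rcases hsa b with h | ⟨b', rfl⟩
        · simp [hy0 b c (Or.inl h), hy0 (e a') b (Or.inr h)]
        · rcases hsa c with h | ⟨c', rfl⟩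
          · simp [hy0 (e b') c (Or.inr h), hy0 (e a') c (Or.inr h)]
          · rw [hy, hy, hy]
            exact X_path' (hlt hab).ne (hlt hbc).ne ((hlt hab).trans (hlt hbc)).ne)
    (fun a b c d _ _ h1 h2 h3 h4 => by
      rcases hsa a with h | ⟨a', rfl⟩
      · simp [hy0 _ _ (Or.inl h)]
      · rcases hsa b with h | ⟨b', rfl⟩
        · simp [hy0 _ _ (Or.inr h)]
        · rcases hsa c with h | ⟨c', rfl⟩
          · simp [hy0 _ _ (Or.inl h)]
          · rcases hsa d with h | ⟨d', rfl⟩
            · simp [hy0 _ _ (Or.inr h)]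
            · rw [hy, hy]
              exact X_comm (hne h1) (hne h2) (hne h3) (hne h4))
  have hfX : ∀ a b, f (X a b) = y a b := by
    intro a b
    rcases lt_trichotomy a b with h | h | h
    · exact hf a b h
    · subst h
      rw [X_self, map_zero]
      rcases hsa a with h | ⟨a', rfl⟩
      · rw [hy0 _ _ (Or.inl h)]
      · rw [hy, X_self]
    · rw [X_neg b a, map_neg, hf b a h]
      rcases hsa a with h | ⟨a', rfl⟩
      · rw [hy0 _ _ (Or.inl h), hy0 _ _ (Or.inr h), neg_zero]
      · rcases hsa b with h | ⟨b', rfl⟩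
        · rw [hy0 _ _ (Or.inl h), hy0 _ _ (Or.inr h), neg_zero]
        · rw [hy, hy, X_neg b' a']
  exact ⟨f, fun a b h => by rw [hfX, hy0 _ _ h], fun a b => by rw [hfX, hy], hP⟩

/-- the homomorphism `A N → A M` which kills the indices outside of the range of `e` -/
def kapE (e : Fin M → Fin N) (he : StrictMono e) : A N →+* A M := (exists_kapE e he).choose

theorem kapE_zero (e : Fin M → Fin N) (he : StrictMono e) {a b : Fin N}
    (h : a ∉ Set.range e ∨ b ∉ Set.range e) : kapE e he (X a b) = 0 :=
  (exists_kapE e he).choose_spec.1 a b h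

theorem kapE_X (e : Fin M → Fin N) (he : StrictMono e) (a b : Fin M) :
    kapE e he (X (e a) (e b)) = X a b := (exists_kapE e he).choose_spec.2.1 a b

theorem kapE_P (e : Fin M → Fin N) (he : StrictMono e) {z : A N} (hz : z ∈ P N) :
    kapE e he z ∈ P M := (exists_kapE e he).choose_spec.2.2 z hz

open Classical in
/-- `iotE ∘ kapE` is the endomorphism which kills the indices outside of the range -/
theorem iotE_kapE (e : Fin M → Fin N) (he : StrictMono e) (z : A N) :
    iotE e he (kapE e he z) = kilS (univ.filter fun a => a ∉ Set.range e) z := by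
  have : (iotE e he).comp (kapE e he) = kilS (univ.filter fun a => a ∉ Set.range e) := by
    refine A_hom_ext fun a b _ => ?_
    rw [RingHom.comp_apply, kilS_X]
    by_cases h : a ∉ Set.range e ∨ b ∉ Set.range e
    · rw [kapE_zero e he h, map_zero, if_pos]
      simpa using h
    · rw [if_neg (by simpa using h)]
      push Not at h
      obtain ⟨⟨a', rfl⟩, ⟨b', rfl⟩⟩ := h
      rw [kapE_X, iotE_X]
  exact RingHom.congr_fun this z

theorem kapE_theta_zero (e : Fin M → Fin N) (he : StrictMono e) {i : Fin N}
    (h : i ∉ Set.range e) : kapE e he (θ i) = 0 := by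
  rw [θ, map_sum]; exact sum_eq_zero fun j _ => kapE_zero e he (Or.inl h)

theorem kapE_theta (e : Fin M → Fin N) (he : StrictMono e) (l : Fin M) :
    kapE e he (θ (e l)) = θ l := by
  classical
  rw [θ, map_sum, θ]
  have h1 : ∑ j, kapE e he (X (e l) j) = ∑ j ∈ univ.image e, kapE e he (X (e l) j) := by
    symm
    refine sum_subset (subset_univ _) fun j _ hj => ?_
    refine kapE_zero e he (Or.inr ?_)
    rintro ⟨j', rfl⟩
    exact hj (mem_image_of_mem _ (mem_univ _))
  rw [h1, sum_image fun a _ b _ h => he.injective h]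
  exact sum_congr rfl fun j _ => kapE_X e he l j

/-- killing the variables outside of the range of `e` -/
def kilpE (e : Fin M → Fin N) : MvPolynomial (Fin N) ℤ →+* MvPolynomial (Fin M) ℤ :=
  MvPolynomial.eval₂Hom MvPolynomial.C fun a => (pinv e a).elim 0 MvPolynomial.X

theorem kilpE_zero (e : Fin M → Fin N) {i : Fin N} (h : i ∉ Set.range e) :
    kilpE e (MvPolynomial.X i) = 0 := by simp [kilpE, pinv_none e h]

theorem kilpE_X (e : Fin M → Fin N) (he : StrictMono e) (a : Fin M) :
    kilpE e (MvPolynomial.X (e a)) = MvPolynomial.X a := by simp [kilpE, pinv_apply e he]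

theorem kapE_ev (e : Fin M → Fin N) (he : StrictMono e) (p : MvPolynomial (Fin N) ℤ) :
    kapE e he (ev N p) = ev M (kilpE e p) := by
  have : (kapE e he).comp (ev N) = (ev M).comp (kilpE e) := by
    refine hom_ext fun a => ?_
    by_cases h : a ∈ Set.range e
    · obtain ⟨a', rfl⟩ := h
      simp [kapE_theta, kilpE_X e he]
    · simp [kapE_theta_zero e he h, kilpE_zero e h]
  exact RingHom.congr_fun this p

end Pool.Agent.FKP
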