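import Pool.Agent.FKP.StmtsS

/-!
# FKP: the class of the positive polynomials, and the permutations

`Pos N f` is generated by rules; the theorem (row POS) is that `ev N f` is in the cone.
-/

set_option autoImplicit false

open Finset Equiv

noncomputable section

namespace Pool.Agent.FKP

/-- Polynomials in `N` variables which are positive at the Dunkl elements, generated by the rules
of this hand-in. -/
inductive Pos : (N : ℕ) → MvPolynomial (Fin N) ℤ → Prop
  /-- elementary symmetric polynomials of the first `j` variables (Pieri) -/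
  | elem {N : ℕ} (j k : ℕ) : j ≤ N → Pos N (ek N j k)
  /-- `e_p(X_M) e_q(X_(M-r)) - e_(p+q)(X_M)` -/
  | diff {N : ℕ} (M r p q : ℕ) : r ≤ p → 1 ≤ q → r ≤ M → M ≤ N →
      Pos N (ek N M p * ek N (M - r) q - ek N M (p + q))
  /-- sums -/
  | add {N : ℕ} {f g : MvPolynomial (Fin N) ℤ} : Pos N f → Pos N g → Pos N (f + g)
  /-- products -/
  | mul {N : ℕ} {f g : MvPolynomial (Fin N) ℤ} : Pos N f → Pos N g → Pos N (f * g)
  /-- the ideal of the symmetric polynomials without constant term -/
  | cong {N : ℕ} {f g : MvPolynomial (Fin N) ℤ} : Pos N f → f - g ∈ Isy N → Pos N g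
  /-- the substitution `x_i ↦ - x_(N-1-i)` -/
  | flip {N : ℕ} {f : MvPolynomial (Fin N) ℤ} : Pos N f →
      Pos N (MvPolynomial.eval₂ MvPolynomial.C (fun i => -MvPolynomial.X (Fin.rev i)) f)
  /-- Schubert polynomials of skew sums -/
  | skew {m s : ℕ} (S : Perm (Fin (m + s)) → MvPolynomial (Fin (m + s)) ℤ) (u : Perm (Fin s))
      (v : Perm (Fin m)) : IsSch (m + s) S → (∀ S1, IsSch s S1 → Pos s (S1 u)) →
      (∀ S2, IsSch m S2 → Pos m (S2 v)) → Pos (m + s) (S (Pool.Agent.FKP.skew u v))
  /-- Schubert polynomials of glueings -/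
  | glue {m s : ℕ} (S : Perm (Fin (m + s)) → MvPolynomial (Fin (m + s)) ℤ) (r : ℕ)
      (v : Perm (Fin m)) (u : Perm (Fin (m + s))) : IsSch (m + s) S →
      (∀ a b : Fin m, a < b → b.val < r → v a < v b) →
      (∀ a b : Fin (m + s), a < b → (u b).val < m → (u a).val < m → u a < u b) →
      (∀ a : Fin (m + s), r + s ≤ a.val → (u a).val < m) →
      (∀ S1, IsSch (m + s) S1 → Pos (m + s) (S1 u)) → (∀ S2, IsSch m S2 → Pos m (S2 v)) →
      Pos (m + s) (S (low s v * u))

/-- the permutations whose Schubert polynomial is generated by the rules -/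
def Built (N : ℕ) (w : Perm (Fin N)) : Prop := ∀ S, IsSch N S → Pos N (S w)

/-- `w` avoids the patterns 1324, 2143 and 3142 -/
def Avo {N : ℕ} (w : Perm (Fin N)) : Prop := ∀ a b c d : Fin N, a < b → b < c → c < d →
  ¬ (w a < w c ∧ w c < w b ∧ w b < w d) ∧ ¬ (w b < w a ∧ w a < w d ∧ w d < w c) ∧
  ¬ (w b < w d ∧ w d < w a ∧ w a < w c)

/-- POS: the generated polynomials are positive. -/
def PosStmt : Prop := ∀ (N : ℕ) (f : MvPolynomial (Fin N) ℤ), Pos N f → ev N f ∈ P N

/-- PAT: the pattern class is built. (Strong induction on `N`. `N ≤ 1` is trivial. Let `j` be the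
position of the largest value. (a) If no `a < b < j` has `w a > w b`, then `w = low 1 v * u`
(`s = 1`, `r = j`), where `v` is `w` without the largest value and `u` is the permutation with the
largest value at `j` and the rest in increasing order, `S u` is the product of the `- x_l`, `l > j`,
modulo `Isy` (CYC), which is `flip` of an `elem`. (b) If `j` is the last position, then the values
after the value `0` are in increasing order (1324), and (a) applies to `revc w`. (c) Otherwise let
`a < b < j`, `w a > w b`; everything after `j` is below `w b` (2143, 3142), and if `d < j < e` with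
`w d < w e` then `d, a, b, j` is a 1324; so everything after `j` is below everything up to `j`, and
`w` is a skew sum of smaller permutations of the class.) -/
def PatStmt : Prop := ∀ (N : ℕ) (w : Perm (Fin N)), Avo w → Built N w

end Pool.Agent.FKP
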