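import Pool.Agent.FKP.KapE

/-!
# FKP: the statements of the algebra modules

`j` is the number of the rows `0, .., j - 1`. Outside letters: `(a, b)` with `a < j ≤ b`; upper
letters: `(c, d)` with `j ≤ c < d`.
-/

set_option autoImplicit false

open Finset

noncomputable section

namespace Pool.Agent.FKP

/-- the elementary symmetric polynomial of degree `k` in the first `j` variables -/
def ek (N j k : ℕ) : MvPolynomial (Fin N) ℤ :=
  ∑ s ∈ powersetCard k (univ.filter fun i : Fin N => i.val < j), ∏ i ∈ s, MvPolynomial.X i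

/-- the word of a list of pairs -/
def wd {N : ℕ} (l : List (Fin N × Fin N)) : A N := (l.map fun p => X p.1 p.2).prod

/-- outside letters -/
def IsOut {N : ℕ} (j : ℕ) (p : Fin N × Fin N) : Prop := p.1.val < j ∧ j ≤ p.2.val

/-- upper letters -/
def IsUp {N : ℕ} (j : ℕ) (p : Fin N × Fin N) : Prop := j ≤ p.1.val ∧ p.1 < p.2

/-- the rows which occur in the word -/
def rows {N : ℕ} (j : ℕ) (l : List (Fin N × Fin N)) : Finset (Fin N) :=
  (l.map Prod.fst).toFinset.filter fun a => a.val < j

/-- the outside letters -/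
def Out (N j : ℕ) : Set (A N) := {z | ∃ p : Fin N × Fin N, IsOut j p ∧ z = X p.1 p.2}

/-- the outside and upper letters -/
def OutUp (N j : ℕ) : Set (A N) :=
  {z | ∃ p : Fin N × Fin N, (IsOut j p ∨ IsUp j p) ∧ z = X p.1 p.2}

/-- PST (principle P*; DONE in the abstract form `Pool.Agent.FKZ.pstar`): a polynomial `f` with `f(θ)` in the cone, a word `q` which is a summand of
`g(θ)`, `f g = 0` at the Dunkl elements: then `f(θ) m q = 0` for all `m`.
Proof: it is enough to take a word `m` (`A_induction`); every word is a summand of a polynomial in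
the Dunkl elements (`∑_{i ≤ a} θ_i = ∑_{i ≤ a < b} X i b`), which commutes with `g(θ)`;
`eq_zero_of_add`. -/
def PstStmt : Prop := ∀ (N : ℕ) (f g : MvPolynomial (Fin N) ℤ) (q q' : A N),
  ev N f ∈ P N → q ∈ P N → q' ∈ P N → ev N g = q + q' → ev N (f * g) = 0 →
    ∀ m : A N, ev N f * m * q = 0

/-- STR: star words with the same first and last letter vanish in `A N`.
Proof: in `A N` (or `E N`) the sum over the rotations `i` of
`X (a i) k X (a (i+1)) k .. X (a (i-1)) k X (a i) k` is zero (induction on the length with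
`X a k * X a' k = X a' k * X a a' - X a a' * X a k` for the adjacent pair `a = a 0, a' = a 1`);
all summands are in the cone up to a common sign when `k` is larger than all `a i`, or smaller than
all `a i`; `eq_zero_of_add`. -/
def StrStmt : Prop := ∀ (N : ℕ) (k a : Fin N) (l : List (Fin N)), (a :: l).Nodup →
  ((∀ c ∈ a :: l, c < k) ∨ ∀ c ∈ a :: l, k < c) →
    X a k * (l.map fun c => X c k).prod * X a k = 0

/-- the sum over all orders of the rows `C` in the column `b` -/
def R {N : ℕ} (b : Fin N) (C : Finset (Fin N)) : A N :=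
  (C.val.lists.map fun l : List (Fin N) => (l.map fun c => X c b).prod).sum

/-- COL: the one column identity (`k` and `b` are larger than all the rows `D`).
Write `R k C * X k b = X k b * R b C + ∑_{C = C₁ ⊔ {c} ⊔ C₂} X c b * R k C₁ * X c k * R b C₂`
(from `X c k * X k b = X k b * X c b + X c b * X c k`), and
`R b (insert k D) = ∑_{B ⊔ C = D} R b B * X k b * R b C`. -/
def ColStmt : Prop := ∀ (N : ℕ) (k b : Fin N) (D : Finset (Fin N)), (∀ a ∈ D, a < k) → k < b →
  R b (insert k D) = ∑ B ∈ D.powerset, R b B * R k (D \ B) * (X k b - ∑ a ∈ B, X a k)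

/-- PIE: Pieri's formula. (1) the symmetric functions vanish; (2) `e_k` of the first `j` Dunkl
elements is a sum of words in outside letters; (3) every word in outside letters with different
rows is a summand. Proof (induction on `j`, next row `k = j`): in `(A N)[t]`,
`∏_{i < j} (t + θ_i) = ∑ t ^ #B_* ∏_{b ≥ j} R b (B_b)`, sum over the decompositions of the rows into
`B_*` and `B_b`, `b ≥ j` (the letters of different columns and rows commute). Multiply with
`t + θ_k = t + ∑_{b > k} X k b - ∑_{a < k} X a k`: `R k C * X a k = 0` for `a ∈ C` (STR);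
`∑_{B ⊔ C = D} t ^ #B R k C (t - ∑_{a ∈ B} X a k) = t ^ (#D + 1)` and COL for the columns `b > k`. -/
def PieStmt : Prop := ∀ (N j : ℕ), j ≤ N →
  (∀ k, 1 ≤ k → ev N (ek N N k) = 0) ∧
  (∀ k, ev N (ek N j k) ∈ Subsemiring.closure (Out N j)) ∧
  ∀ l : List (Fin N × Fin N), (∀ p ∈ l, IsOut j p) → (l.map Prod.fst).Nodup →
    ∃ q' ∈ P N, ev N (ek N j l.length) = wd l + q'

/-- ZLM: lemma Z (note 2153, step (4)) for `r + 1` rows (DONE in the abstract form
`Pool.Agent.FKZ.zedCount`, `Pool.Agent.FKZ.kill`). -/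
def ZlmStmt : Prop := ∀ (N j r : ℕ) (I : TwoSidedIdeal (A N)),
  (∀ l : List (Fin N × Fin N), (∀ p ∈ l, IsOut j p) → (l.map Prod.fst).Nodup →
    l.length = r + 1 → wd l ∈ I) →
  ∀ l : List (Fin N × Fin N), (∀ p ∈ l, IsOut j p ∨ IsUp j p) → r + 1 ≤ (rows j l).card → wd l ∈ I

/-- GLU: the part with at most `r` rows. `F = ∑_{K, #K ≤ r} π_K Γ`,
`π_K = ∏_{i < j, i ∉ K} kil i ∏_{i ∈ K} (1 - kil i)` (a word is fixed by `π_K` if its set of rows is
`K`, otherwise killed); `π_K Γ` is in the cone because `K` is contained in a set of `r` rows;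
`sub_kil_P`. -/
def GluStmt : Prop := ∀ (N j r : ℕ) (I : TwoSidedIdeal (A N)) (Γ : A N), r ≤ j → j ≤ N →
  (∀ l : List (Fin N × Fin N), (∀ p ∈ l, IsOut j p ∨ IsUp j p) → r + 1 ≤ (rows j l).card →
    wd l ∈ I) →
  Γ ∈ Subring.closure (OutUp N j) →
  (∀ K : Finset (Fin N), (∀ i ∈ K, i.val < j) → K.card = r →
    kilS (univ.filter fun i => i.val < j ∧ i ∉ K) Γ ∈ P N) →
  ∃ F ∈ P N, Γ - F ∈ I

/-- SYM: symmetric lift. `f` symmetric in the first `r` variables of `m`; `G` is the same polynomial
in the elementary symmetric functions of the first `r + s` variables and the variables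
`c ≥ r + s`. -/
def SymStmt : Prop := ∀ (m r s : ℕ), r ≤ m → ∀ f : MvPolynomial (Fin m) ℤ,
  (∀ a b : Fin m, a.val < r → b.val < r → MvPolynomial.rename (Equiv.swap a b) f = f) →
  ∃ G : MvPolynomial (Fin (m + s)) ℤ,
    (∀ a b : Fin (m + s), a.val < r + s → b.val < r + s →
      MvPolynomial.rename (Equiv.swap a b) G = G) ∧
    (∀ e : Fin m → Fin (m + s), StrictMono e → (∀ a, r ≤ a.val → (e a).val = a.val + s) →
      kilpE e G = f) ∧
    G ∈ Algebra.adjoin ℤ ({z | ∃ k, z = ek (m + s) (r + s) k} ∪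
      {z | ∃ c : Fin (m + s), r + s ≤ c.val ∧ z = MvPolynomial.X c}) ∧
    G - MvPolynomial.rename (fun a : Fin m => Fin.addNat a s) f ∈
      Ideal.span {z | ∃ k, 1 ≤ k ∧ z = ek (m + s) s k}

/-- GLM: the algebra part of the gluing theorem. `I = {z | ∀ m', y(θ) m' z = 0}`; PST and PIE give
the hypothesis of ZLM; GLU for `Γ = ev G`: for a set `K` of `r` rows let `e` be the strictly
monotone map with the range `K ∪ {c ≥ r + s}`; `kilS (..) Γ = iotE e (kapE e Γ) = iotE e (ev m f)`. -/
def GlmStmt : Prop := ∀ (m r s : ℕ), r ≤ m →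
  ∀ (y G : MvPolynomial (Fin (m + s)) ℤ) (f : MvPolynomial (Fin m) ℤ),
    ev (m + s) y ∈ P (m + s) → ev (m + s) (y * ek (m + s) (r + s) (r + 1)) = 0 → ev m f ∈ P m →
    G ∈ Algebra.adjoin ℤ ({z | ∃ k, z = ek (m + s) (r + s) k} ∪
      {z | ∃ c : Fin (m + s), r + s ≤ c.val ∧ z = MvPolynomial.X c}) →
    (∀ e : Fin m → Fin (m + s), StrictMono e → (∀ a, r ≤ a.val → (e a).val = a.val + s) →
      kilpE e G = f) →
    ev (m + s) (y * G) ∈ P (m + s)

/-- AUT: the automorphism `a ↦ rev a`. -/
def AutStmt : Prop := ∀ N : ℕ, ∃ ρ : A N →+* A N,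
  (∀ a b, ρ (X a b) = X (Fin.rev b) (Fin.rev a)) ∧ (∀ z ∈ P N, ρ z ∈ P N) ∧
  ∀ p : MvPolynomial (Fin N) ℤ, ρ (ev N p) =
    ev N (MvPolynomial.eval₂ MvPolynomial.C (fun i => -MvPolynomial.X (Fin.rev i)) p)

/-- TEE: `e_p(X_M) e_q(X_(M-r)) - e_(p+q)(X_M)` is positive for `r ≤ p`, `1 ≤ q` (T1 of note 2058 in
the dual form). A word of `e_(p+q)(X_M)` has different rows, at most `r ≤ p` of them are
`≥ M - r`; take the last `q` letters with a row `< M - r`, from right to left; if the next letter of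
the same column `b` has a row `c ≥ M - r` use
`X a b * X c b = X c b * X a c - X a c * X a b` and move `X a c` to the right end, otherwise move
`X a b` to the right end. The map to (word of `e_p(X_M)`, word of `e_q(X_(M-r))`) is injective. -/
def TeeStmt : Prop := ∀ (N M r p q : ℕ), r ≤ p → 1 ≤ q → r ≤ M → M ≤ N →
  ev N (ek N M p * ek N (M - r) q - ek N M (p + q)) ∈ P N

end Pool.Agent.FKP
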