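import Pool.Agent.FKP.Stmts

/-!
# FKP: Schubert families, statements

Everything is for `Perm (Fin N)`, any `N`; the frozen statement is the case `N = n + 1`.
Positions and values are counted from `0`. `N = m + s`: the first `s` positions `lo i`, the last
`m` positions `hi a`.
-/

set_option autoImplicit false

open Finset Equiv

noncomputable section

namespace Pool.Agent.FKP

/-- The family of the Schubert polynomials: the value at the longest element and the recursion by
divided differences. -/
def IsSch (N : ℕ) (S : Perm (Fin N) → MvPolynomial (Fin N) ℤ) : Prop :=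
  S Fin.revPerm = ∏ j : Fin N, MvPolynomial.X j ^ (N - 1 - (j : ℕ)) ∧
  ∀ (w : Perm (Fin N)) (i j : Fin N), (i : ℕ) + 1 = j → w j < w i →
    (MvPolynomial.X i - MvPolynomial.X j) * S (w * swap i j) =
      S w - MvPolynomial.rename (swap i j) (S w)

/-- `w` satisfies Q1 -/
def good (N : ℕ) (w : Perm (Fin N)) : Prop := ∀ S, IsSch N S → ev N (S w) ∈ P N

/-- the ideal of the symmetric polynomials without constant term -/
def Isy (N : ℕ) : Ideal (MvPolynomial (Fin N) ℤ) := Ideal.span {z | ∃ k, 1 ≤ k ∧ z = ek N N k}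

/-- the first `s` positions of `m + s` -/
def lo {m s : ℕ} (i : Fin s) : Fin (m + s) := ⟨i, by omega⟩

/-- the last `m` positions of `m + s` -/
def hi {m s : ℕ} (a : Fin m) : Fin (m + s) := Fin.addNat a s

/-- positions of `m + s` -/
def posn (m s : ℕ) : Fin (m + s) ≃ Fin s ⊕ Fin m :=
  (finCongr (add_comm m s)).trans finSumFinEquiv.symm

/-- the skew sum of permutations: `lo i ↦ u i + m`, `hi a ↦ v a` -/
def skew {m s : ℕ} (u : Perm (Fin s)) (v : Perm (Fin m)) : Perm (Fin (m + s)) :=
  (posn m s).trans ((Equiv.sumCongr u v).trans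
    ((Equiv.sumComm (Fin s) (Fin m)).trans finSumFinEquiv))

/-- `v` on the values `< m`, the identity on the `s` values above -/
def low {m : ℕ} (s : ℕ) (v : Perm (Fin m)) : Perm (Fin (m + s)) :=
  finSumFinEquiv.symm.trans ((Equiv.sumCongr v (Equiv.refl (Fin s))).trans finSumFinEquiv)

/-- conjugation with the longest element -/
def revc {N : ℕ} (w : Perm (Fin N)) : Perm (Fin N) := Fin.revPerm * w * Fin.revPerm

/-- symmetric in the first `r` variables -/
def SymF {N : ℕ} (r : ℕ) (f : MvPolynomial (Fin N) ℤ) : Prop :=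
  ∀ a b : Fin N, a.val < r → b.val < r → MvPolynomial.rename (swap a b) f = f

/-! ### statements -/

/-- BRG: the frozen form of the family. -/
def BrgStmt : Prop := ∀ (n : ℕ) (S : Perm (Fin (n + 1)) → MvPolynomial (Fin (n + 1)) ℤ),
  S Fin.revPerm = ∏ j : Fin (n + 1), MvPolynomial.X j ^ (n - j.val) →
  (∀ (w : Perm (Fin (n + 1))) (i : Fin n), w i.succ < w i.castSucc →
    (MvPolynomial.X i.castSucc - MvPolynomial.X i.succ) * S (w * swap i.castSucc i.succ)
      = S w - MvPolynomial.rename (⇑(swap i.castSucc i.succ)) (S w)) → IsSch (n + 1) S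

/-- DDX: divided differences exist. -/
def DdxStmt : Prop := ∀ (N : ℕ) (i j : Fin N) (p : MvPolynomial (Fin N) ℤ),
  ∃ q : MvPolynomial (Fin N) ℤ,
    (MvPolynomial.X i - MvPolynomial.X j) * q = p - MvPolynomial.rename (swap i j) p

/-- DDI: the ideal `Isy` is stable under divided differences. (`ek N N k` is symmetric; DDX;
`X i - X j` is not a zero divisor.) -/
def DdiStmt : Prop := ∀ (N : ℕ) (i j : Fin N) (p q : MvPolynomial (Fin N) ℤ), i ≠ j →
  (MvPolynomial.X i - MvPolynomial.X j) * q = p - MvPolynomial.rename (swap i j) p →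
  p ∈ Isy N → q ∈ Isy N

/-- ASC: a Schubert polynomial is symmetric in the first `r` variables if `w` is increasing on the
first `r` positions. (For an adjacent ascent `i, i + 1` of `w` use the recursion for
`w * swap i (i + 1)`; transpositions are products of adjacent ones.) -/
def AscStmt : Prop := ∀ (N : ℕ) (S : Perm (Fin N) → MvPolynomial (Fin N) ℤ), IsSch N S →
  ∀ (r : ℕ) (w : Perm (Fin N)), (∀ a b : Fin N, a < b → b.val < r → w a < w b) → SymF r (S w)

/-- SKW: the factorisation of the Schubert polynomial of a skew sum; in particular the family for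
`m + s` gives families for `s` and for `m`. (`S (skew u 1')`, `1'` the longest element, is
divisible by the monomial `(∏ X (lo i)) ^ m * ∏ X (hi a) ^ (m - 1 - a)`: downward induction on `u`
with DDX; likewise `v`; then the general formula by downward induction; uniqueness of quotients.) -/
def SkwStmt : Prop := ∀ (m s : ℕ) (S : Perm (Fin (m + s)) → MvPolynomial (Fin (m + s)) ℤ),
  IsSch (m + s) S → ∃ S1 S2, IsSch s S1 ∧ IsSch m S2 ∧ ∀ u v,
    S (skew u v) = (∏ i : Fin s, MvPolynomial.X (lo i)) ^ m * MvPolynomial.rename lo (S1 u) *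
      MvPolynomial.rename hi (S2 v)

/-- RCT: the class of the rectangle times the divisor is zero. (`A k = e_k` of the first `s`,
`B k = e_k` of the last `m` variables, `∑ A i * B (k - i) ∈ Isy` for `k ≥ 1`; by induction
`A s ^ (k + 1) * B (m - k) ∈ Isy`, `k < m`; `B 1 = - A 1`.) -/
def RctStmt : Prop := ∀ m s : ℕ,
  (∏ i : Fin s, MvPolynomial.X (lo i)) ^ m * ∑ i : Fin s, MvPolynomial.X (lo i) ∈ Isy (m + s)

/-- the monomial `x_0^(N-1) ... x_(s-1)^(N-s)` -/
def topm (N s : ℕ) : MvPolynomial (Fin N) ℤ :=
  ∏ j ∈ univ.filter (fun j : Fin N => j.val < s), MvPolynomial.X j ^ (N - 1 - j.val)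

/-- TOP: `topm N s * x_i` is in `Isy` for `i < s`. (Induction on `s`: modulo the colon ideal
`Isy : topm N s`, which contains `x_i`, `i < s`, one has `∏ (T - x_l) = T ^ N`, so
`∏_{l ≥ s} (T - x_l) = T ^ (N - s)`, and `T = x_s` gives `x_s ^ (N - s) = 0`.) -/
def TopStmt : Prop := ∀ (N s : ℕ) (i : Fin N), i.val < s →
  topm N s * MvPolynomial.X i ∈ Isy N

/-- CYC: for `w = [0, .., j-1, N-1, j, .., N-2]` (the largest value is at position `j`, the other
values are in increasing order) the Schubert polynomial is the product of the `- x_l`, `l > j`,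
modulo `Isy`; in particular (`j = N - 1`) `S 1 = 1` modulo `Isy`. (Induction on `N` with SKW for
`s = 1`: `S w = x_0^(N-1) * 1` modulo `topm N 1 * x_0`, for `j = 0`; `x_0^(N-1)` is the product of
the `- x_l`, `l > 0`, modulo `Isy`; then `j → j + 1` with the recursion and DDI.) -/
def CycStmt : Prop := ∀ (N : ℕ) (S : Perm (Fin N) → MvPolynomial (Fin N) ℤ), IsSch N S →
  S 1 - 1 ∈ Isy N ∧
  ∀ (j : Fin N) (w : Perm (Fin N)), (w j : ℕ) = N - 1 →
    (∀ a b : Fin N, a < b → a ≠ j → b ≠ j → w a < w b) →
    S w - ∏ l ∈ univ.filter (fun l : Fin N => j < l), (- MvPolynomial.X l) ∈ Isy N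

/-- GLS: the Schubert polynomial of `low s v * u` modulo `Isy`, where the values of `u` below `m`
are in increasing order, the `s` values above are among the first `r + s` ones, and `v` is
increasing on the first `r` positions (so `low s v * u` is a glueing of `u` and `v`).
(Induction on the number of ascents/inversions of `u` from `u = skew (longest) 1`, for which
`S (skew longest v) = topm * S2 v (hi)`, TOP, CYC; the step is the recursion: `G` is symmetric, DDI.
If `u` is not `skew longest 1` there are adjacent positions `i, i + 1 < r + s` with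
`u i < u (i + 1)`, `m ≤ u (i + 1)`.) -/
def GlsStmt : Prop := ∀ (m s : ℕ) (S : Perm (Fin (m + s)) → MvPolynomial (Fin (m + s)) ℤ),
  IsSch (m + s) S → ∃ S2, IsSch m S2 ∧ ∀ (r : ℕ) (v : Perm (Fin m)) (u : Perm (Fin (m + s))),
    (∀ a b : Fin m, a < b → b.val < r → v a < v b) →
    (∀ a b : Fin (m + s), a < b → (u b).val < m → (u a).val < m → u a < u b) →
    (∀ a : Fin (m + s), r + s ≤ a.val → (u a).val < m) →
    ∀ G : MvPolynomial (Fin (m + s)) ℤ, SymF (r + s) G →
      G - MvPolynomial.rename hi (S2 v) ∈ Ideal.span {z | ∃ k, 1 ≤ k ∧ z = ek (m + s) s k} →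
      S (low s v * u) - S u * G ∈ Isy (m + s)

/-- GLR: `S u * e_(r+1)(X_(r+s))` is in `Isy` if `u` is as in GLS. (The same induction: for
`u = skew longest 1` it is `topm (m + s) s * e_(r+1)(X_(r+s))`, and every term of
`e_(r+1)(X_(r+s))` has one of the first `s` variables.) -/
def GlrStmt : Prop := ∀ (m s : ℕ) (S : Perm (Fin (m + s)) → MvPolynomial (Fin (m + s)) ℤ),
  IsSch (m + s) S → ∀ (r : ℕ) (u : Perm (Fin (m + s))),
    (∀ a b : Fin (m + s), a < b → (u b).val < m → (u a).val < m → u a < u b) →
    (∀ a : Fin (m + s), r + s ≤ a.val → (u a).val < m) →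
      S u * ek (m + s) (r + s) (r + 1) ∈ Isy (m + s)

/-- DUA: the Schubert polynomial of the conjugate with the longest element modulo `Isy`. (Both
sides satisfy the recursion; for the longest element: `∏ (-x_j)^j = ∏ x_j^(N-1-j)` modulo `Isy`,
because `topm N N` changes sign under adjacent transpositions modulo `Isy`.) -/
def DuaStmt : Prop := ∀ (N : ℕ) (S : Perm (Fin N) → MvPolynomial (Fin N) ℤ), IsSch N S →
  ∀ w, S (revc w) -
    MvPolynomial.eval₂ MvPolynomial.C (fun i => -MvPolynomial.X (Fin.rev i)) (S w) ∈ Isy N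

/-- SKG: skew sums of good permutations are good. (note 2079; SKW, RCT, PIE, P*.) -/
def SkgStmt : Prop := ∀ (m s : ℕ) (u : Perm (Fin s)) (v : Perm (Fin m)),
  good s u → good m v → good (m + s) (skew u v)

/-- GLG: glueing of good permutations. (GLS, GLR, ASC, SYM, GLM.) -/
def GlgStmt : Prop := ∀ (m s r : ℕ) (v : Perm (Fin m)) (u : Perm (Fin (m + s))),
    (∀ a b : Fin m, a < b → b.val < r → v a < v b) →
    (∀ a b : Fin (m + s), a < b → (u b).val < m → (u a).val < m → u a < u b) →
    (∀ a : Fin (m + s), r + s ≤ a.val → (u a).val < m) →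
    good (m + s) u → good m v → good (m + s) (low s v * u)

/-- DUG: conjugation with the longest element. (DUA, AUT.) -/
def DugStmt : Prop := ∀ (N : ℕ) (w : Perm (Fin N)), good N w → good N (revc w)

end Pool.Agent.FKP
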